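import Pool.Agent.Y979.FC.Comb

/-!
# Patterns, and the law of the merged coloring
-/

set_option autoImplicit false

namespace Pool.Agent.Y979.FC

open MeasureTheory
open scoped ENNReal

section Match

variable {S : Type*}

/-- the sequence `x` matches the pattern `w` (with free positions) from position `k` on -/
def Match (x : ℤ → S) : ℤ → List (Option S) → Prop
  | _, [] => True
  | k, none :: w => Match x (k + 1) w
  | k, some a :: w => x k = a ∧ Match x (k + 1) w

theorem match_append (x : ℤ → S) (k : ℤ) (v w : List (Option S)) :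
    Match x k (v ++ w) ↔ Match x k v ∧ Match x (k + v.length) w := by
  induction v generalizing k with
  | nil => simp [Match]
  | cons o v ih =>
    have e : k + ((o :: v).length : ℤ) = k + 1 + v.length := by
      simp only [List.length_cons]
      push_cast
      ring
    rw [e]
    cases o with
    | none =>
      change Match x (k + 1) (v ++ w) ↔ _
      rw [ih]
      rfl
    | some a =>
      change x k = a ∧ Match x (k + 1) (v ++ w) ↔ (x k = a ∧ Match x (k + 1) v) ∧ _
      rw [ih, and_assoc]

theorem match_word_iff (x : ℤ → S) (k : ℤ) (u : List S) :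
    Match x k (u.map some) ↔ ∀ (j : ℕ) (h : j < u.length), x (k + j) = u[j] := by
  induction u generalizing k with
  | nil => simp [Match]
  | cons a u ih =>
    change x k = a ∧ Match x (k + 1) (u.map some) ↔ _
    rw [ih]
    constructor
    · rintro ⟨h1, h2⟩ j hj
      cases j with
      | zero => simpa using h1
      | succ j =>
        have := h2 j (by simpa using hj)
        simp only [List.getElem_cons_succ]
        rw [← this]
        congr 1
        push_cast
        ring
    · intro h
      refine ⟨?_, fun j hj => ?_⟩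
      · have h0 := h 0 (Nat.succ_pos _)
        rw [List.getElem_cons_zero, Nat.cast_zero, add_zero] at h0
        exact h0
      have := h (j + 1) (by simpa using hj)
      simp only [List.getElem_cons_succ] at this
      rw [← this]
      congr 1
      push_cast
      ring

/-- the pattern of a partial sequence on an interval -/
def pat (g : ℤ → Option S) : ℤ → ℕ → List (Option S)
  | _, 0 => []
  | k, n + 1 => g k :: pat g (k + 1) n

theorem match_pat (x : ℤ → S) (g : ℤ → Option S) (k : ℤ) (n : ℕ) :
    Match x k (pat g k n) ↔ ∀ i, k ≤ i → i < k + n → ∀ a, g i = some a → x i = a := by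
  induction n generalizing k with
  | zero =>
    constructor
    · intro _ i h1 h2
      exfalso
      push_cast at h2
      omega
    · intro _
      trivial
  | succ n ih =>
    have key : Match x k (pat g k (n + 1)) ↔
        (∀ a, g k = some a → x k = a) ∧ Match x (k + 1) (pat g (k + 1) n) := by
      change Match x k (g k :: pat g (k + 1) n) ↔ _
      cases hg : g k with
      | none =>
        change Match x (k + 1) _ ↔ _
        simp
      | some a =>
        change x k = a ∧ _ ↔ _
        simp
    rw [key, ih]
    constructor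
    · rintro ⟨h1, h2⟩ i h3 h4
      rcases eq_or_lt_of_le h3 with h5 | h5
      · rw [← h5]
        exact h1
      · exact h2 i (by omega) (by push_cast at h4 ⊢; omega)
    · intro h
      exact ⟨h k le_rfl (by push_cast; omega), fun i h1 h2 =>
        h i (by omega) (by push_cast at h2 ⊢; omega)⟩

/-- all letters of the pattern satisfy `p` -/
def Letters (p : S → Prop) (w : List (Option S)) : Prop := ∀ a, some a ∈ w → p a

theorem letters_pat {p : S → Prop} {g : ℤ → Option S} (hg : ∀ i a, g i = some a → p a) (k : ℤ)
    (n : ℕ) : Letters p (pat g k n) := by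
  induction n generalizing k with
  | zero => intro a ha; simp [pat] at ha
  | succ n ih =>
    intro a ha
    rcases List.mem_cons.mp ha with h | h
    · exact hg k a h.symm
    · exact ih (k + 1) a h

/-- a pattern is a word or has a first free position -/
theorem pattern_cases (w : List (Option S)) :
    (∃ u : List S, w = u.map some) ∨ ∃ (u : List S) (v : List (Option S)),
      w = u.map some ++ none :: v := by
  induction w with
  | nil => exact Or.inl ⟨[], rfl⟩
  | cons o w ih =>
    cases o with
    | none => exact Or.inr ⟨[], w, rfl⟩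
    | some a =>
      rcases ih with ⟨u, hu⟩ | ⟨u, v, hu⟩
      · exact Or.inl ⟨a :: u, by rw [hu]; rfl⟩
      · exact Or.inr ⟨a :: u, v, by rw [hu]; rfl⟩

variable [MeasurableSpace S] [MeasurableSingletonClass S]

theorem measurableSet_match {Ω : Type*} [MeasurableSpace Ω] {X : ℤ → Ω → S}
    (hX : ∀ i, Measurable (X i)) (k : ℤ) (w : List (Option S)) :
    MeasurableSet {ω | Match (fun i => X i ω) k w} := by
  induction w generalizing k with
  | nil => simp [Match]
  | cons o w ih =>
    cases o with
    | none => exact ih (k + 1)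
    | some a =>
      have : {ω | Match (fun i => X i ω) k (some a :: w)} =
          (X k ⁻¹' {a}) ∩ {ω | Match (fun i => X i ω) (k + 1) w} := by
        ext ω
        rfl
      rw [this]
      exact ((hX k) (measurableSet_singleton a)).inter (ih (k + 1))

end Match

/-! ### Two laws with the same pattern probabilities are equal -/

/-- the cylinders that fix some coordinates to be `0` or `1` -/
def cyl : Set (Set (ℤ → Fin 3)) :=
  {s | ∃ (A : Finset ℤ) (a : ℤ → Fin 3), (∀ i ∈ A, a i ≠ 2) ∧ s = {x | ∀ i ∈ A, x i = a i}}

theorem isPiSystem_cyl : IsPiSystem cyl := by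
  rintro _ ⟨A, a, ha, rfl⟩ _ ⟨A', a', ha', rfl⟩ ⟨y, hy⟩
  obtain ⟨hy1, hy2⟩ := hy
  simp only [Set.mem_setOf_eq] at hy1 hy2
  refine ⟨A ∪ A', y, ?_, ?_⟩
  · intro i hi
    rcases Finset.mem_union.mp hi with h | h
    · rw [hy1 i h]
      exact ha i h
    · rw [hy2 i h]
      exact ha' i h
  · ext x
    simp only [Set.mem_inter_iff, Set.mem_setOf_eq, Finset.mem_union]
    constructor
    · rintro ⟨h1, h2⟩ i (hi | hi)
      · rw [h1 i hi, hy1 i hi]
      · rw [h2 i hi, hy2 i hi]
    · intro h
      exact ⟨fun i hi => by rw [h i (Or.inl hi), hy1 i hi],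
        fun i hi => by rw [h i (Or.inr hi), hy2 i hi]⟩

theorem generateFrom_cyl :
    (MeasurableSpace.pi : MeasurableSpace (ℤ → Fin 3)) = MeasurableSpace.generateFrom cyl := by
  apply le_antisymm
  · rw [MeasurableSpace.pi]
    refine iSup_le fun i => ?_
    rw [MeasurableSpace.comap_le_iff_le_map]
    have h0 : ∀ c : Fin 3, c ≠ 2 →
        MeasurableSet[MeasurableSpace.generateFrom cyl] {x : ℤ → Fin 3 | x i = c} := by
      intro c hc
      apply MeasurableSpace.measurableSet_generateFrom
      refine ⟨{i}, fun _ => c, fun _ _ => hc, ?_⟩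
      ext x
      simp
    have hsing : ∀ c : Fin 3,
        MeasurableSet[MeasurableSpace.generateFrom cyl] {x : ℤ → Fin 3 | x i = c} := by
      intro c
      by_cases hc : c = 2
      · subst hc
        have : {x : ℤ → Fin 3 | x i = 2} =
            ({x : ℤ → Fin 3 | x i = 0} ∪ {x : ℤ → Fin 3 | x i = 1})ᶜ := by
          ext x
          simp only [Set.mem_setOf_eq, Set.mem_compl_iff, Set.mem_union]
          have : ∀ c : Fin 3, c = 2 ↔ ¬ (c = 0 ∨ c = 1) := by decide
          exact this _
        rw [this]
        exact ((h0 0 (by decide)).union (h0 1 (by decide))).compl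
      · exact h0 c hc
    intro s _
    change MeasurableSet[MeasurableSpace.generateFrom cyl] ((fun x : ℤ → Fin 3 => x i) ⁻¹' s)
    have : (fun x : ℤ → Fin 3 => x i) ⁻¹' s = ⋃ c ∈ s, {x : ℤ → Fin 3 | x i = c} := by
      ext x
      simp
    rw [this]
    exact MeasurableSet.biUnion s.to_countable fun c _ => hsing c
  · apply MeasurableSpace.generateFrom_le
    rintro _ ⟨A, a, _, rfl⟩
    have : {x : ℤ → Fin 3 | ∀ i ∈ A, x i = a i} = ⋂ i ∈ A, {x | x i = a i} := by
      ext x
      simp
    rw [this]
    exact A.measurableSet_biInter fun i _ => measurable_pi_apply i (measurableSet_singleton _)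

theorem cyl_eq_match {A : Finset ℤ} {a : ℤ → Fin 3} (ha : ∀ i ∈ A, a i ≠ 2) :
    ∃ (k : ℤ) (w : List (Option (Fin 3))), Letters (· ≠ 2) w ∧
      {x : ℤ → Fin 3 | ∀ i ∈ A, x i = a i} = {x | Match x k w} := by
  classical
  obtain ⟨N, hN⟩ : ∃ N : ℕ, ∀ i ∈ A, |i| ≤ N := by
    refine ⟨A.sup fun i => i.natAbs, fun i hi => ?_⟩
    have := Finset.le_sup (f := fun i : ℤ => i.natAbs) hi
    have h2 : (i.natAbs : ℤ) ≤ ((A.sup fun i => i.natAbs : ℕ) : ℤ) := by exact_mod_cast this
    rwa [Int.natCast_natAbs] at h2
  let g : ℤ → Option (Fin 3) := fun i => if i ∈ A then some (a i) else none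
  refine ⟨-N, pat g (-N) (2 * N + 1), letters_pat (g := g) ?_ _ _, ?_⟩
  · intro i b hb
    by_cases hi : i ∈ A
    · simp only [g, if_pos hi, Option.some.injEq] at hb
      rw [← hb]
      exact ha i hi
    · simp [g, hi] at hb
  · ext x
    simp only [Set.mem_setOf_eq]
    rw [match_pat]
    constructor
    · intro h i _ _ b hb
      by_cases hi : i ∈ A
      · simp only [g, if_pos hi, Option.some.injEq] at hb
        rw [← hb]
        exact h i hi
      · simp [g, hi] at hb
    · intro h i hi
      have h1 := hN i hi
      rw [abs_le] at h1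
      exact h i h1.1 (by push_cast; omega) (a i) (by simp [g, hi])

/-- the probability of a word with letters `0, 1` in the merged coloring -/
noncomputable def q (u : List (Fin 4)) : ℝ≥0∞ := (B u : ℝ≥0∞) / (Z u.length : ℝ≥0∞)

/-- the inclusion of the symbols `0, 1` into the colors -/
def lift : Fin 3 → Fin 4 := ![0, 1, 2]

/-- a law with the pattern probabilities of the merged coloring -/
structure GoodLaw (ν : Measure (ℤ → Fin 3)) : Prop where
  word : ∀ (k : ℤ) (u : List (Fin 3)), (∀ a ∈ u, a ≠ 2) →
    ν {x | Match x k (u.map some)} = q (u.map lift)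
  split : ∀ (k : ℤ) (u : List (Fin 3)) (v : List (Option (Fin 3))), (∀ a ∈ u, a ≠ 2) →
    Letters (· ≠ 2) v → ν {x | Match x k (u.map some ++ none :: v)} =
      q (u.map lift) * ν {x | Match x (k + u.length + 1) v}

theorem goodLaw_unique {ν ν' : Measure (ℤ → Fin 3)} [IsProbabilityMeasure ν]
    [IsProbabilityMeasure ν'] (h : GoodLaw ν) (h' : GoodLaw ν') : ν = ν' := by
  have key : ∀ (n : ℕ) (w : List (Option (Fin 3))), w.length ≤ n → Letters (· ≠ 2) w →
      ∀ k : ℤ, ν {x | Match x k w} = ν' {x | Match x k w} := by
    intro n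
    induction n with
    | zero =>
      intro w hw _ k
      have : w = [] := List.length_eq_zero_iff.mp (by omega)
      subst this
      simp [Match]
    | succ n ih =>
      intro w hw hl k
      rcases pattern_cases w with ⟨u, rfl⟩ | ⟨u, v, rfl⟩
      · have hu : ∀ a ∈ u, a ≠ 2 := fun a ha => hl a (List.mem_map.mpr ⟨a, ha, rfl⟩)
        rw [h.word k u hu, h'.word k u hu]
      · have hu : ∀ a ∈ u, a ≠ 2 := fun a ha => hl a
          (List.mem_append.mpr (Or.inl (List.mem_map.mpr ⟨a, ha, rfl⟩)))
        have hv : Letters (· ≠ 2) v := fun a ha => hl a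
          (List.mem_append.mpr (Or.inr (List.mem_cons_of_mem _ ha)))
        rw [h.split k u v hu hv, h'.split k u v hu hv]
        rw [ih v _ hv]
        simp only [List.length_append, List.length_map, List.length_cons] at hw
        omega
  refine ext_of_generate_finite cyl generateFrom_cyl isPiSystem_cyl ?_ ?_
  · rintro _ ⟨A, a, ha, rfl⟩
    obtain ⟨k, w, hw, hs⟩ := cyl_eq_match ha
    rw [hs]
    exact key w.length w le_rfl hw k
  · rw [measure_univ, measure_univ]

/-! ### The merged coloring has a good law -/

section Coloring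

variable {Ω : Type*} [MeasurableSpace Ω] {P : Measure Ω} {X : ℤ → Ω → Fin 4}

/-- summation over the free positions of a pattern -/
noncomputable def msum : List (Option (Fin 4)) → (List (Fin 4) → ℝ≥0∞) → ℝ≥0∞
  | [], φ => φ []
  | none :: w, φ => ∑ a, msum w (fun y => φ (a :: y))
  | some a :: w, φ => msum w (fun y => φ (a :: y))

theorem msum_congr {w : List (Option (Fin 4))} {φ ψ : List (Fin 4) → ℝ≥0∞}
    (h : ∀ y, φ y = ψ y) : msum w φ = msum w ψ := by
  have : φ = ψ := funext h
  rw [this]

theorem msum_mul (w : List (Option (Fin 4))) (c : ℝ≥0∞) (φ : List (Fin 4) → ℝ≥0∞) :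
    msum w (fun y => c * φ y) = c * msum w φ := by
  induction w generalizing φ with
  | nil => rfl
  | cons o w ih =>
    cases o with
    | none =>
      change ∑ a, msum w (fun y => c * φ (a :: y)) = c * ∑ a, msum w (fun y => φ (a :: y))
      rw [Finset.mul_sum]
      exact Finset.sum_congr rfl fun a _ => ih _
    | some a => exact ih _

theorem msum_sum (w : List (Option (Fin 4))) (φ : Fin 4 → List (Fin 4) → ℝ≥0∞) :
    ∑ a, msum w (φ a) = msum w (fun y => ∑ a, φ a y) := by
  induction w generalizing φ with
  | nil => rfl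
  | cons o w ih =>
    cases o with
    | none =>
      change ∑ a, ∑ b, msum w (fun y => φ a (b :: y)) = ∑ b, msum w (fun y => ∑ a, φ a (b :: y))
      rw [Finset.sum_comm]
      exact Finset.sum_congr rfl fun b _ => ih _
    | some b => exact ih _

theorem prob_match_word (hX : IsFourColoring P X) (k : ℤ) (u : List (Fin 4)) :
    P {ω | Match (fun i => X i ω) k (u.map some)} = q u := by
  have : {ω | Match (fun i => X i ω) k (u.map some)} =
      {ω | ∀ (j : ℕ) (h : j < u.length), X (k + j) ω = u[j]} := by
    ext ω
    exact match_word_iff _ _ _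
  rw [this, hX.law]
  rfl

theorem prob_match_sum (hX : ∀ i, Measurable (X i)) (k : ℤ) (v w : List (Option (Fin 4))) :
    P {ω | Match (fun i => X i ω) k (v ++ none :: w)} =
      ∑ a, P {ω | Match (fun i => X i ω) k (v ++ some a :: w)} := by
  have h1 : {ω | Match (fun i => X i ω) k (v ++ none :: w)} =
      ⋃ a, {ω | Match (fun i => X i ω) k (v ++ some a :: w)} := by
    ext ω
    simp only [Set.mem_setOf_eq, Set.mem_iUnion, match_append]
    constructor
    · rintro ⟨h1, h2⟩
      exact ⟨X (k + v.length) ω, h1, rfl, h2⟩
    · rintro ⟨a, h1, _, h2⟩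
      exact ⟨h1, h2⟩
  rw [h1, measure_iUnion, tsum_fintype]
  · intro a b hab
    refine Set.disjoint_left.mpr fun ω ha hb => hab ?_
    simp only [Set.mem_setOf_eq, match_append] at ha hb
    exact ha.2.1.symm.trans hb.2.1
  · exact fun a => measurableSet_match hX k _

theorem prob_match (hX : ∀ i, Measurable (X i)) (k : ℤ) (w : List (Option (Fin 4)))
    (p : List (Fin 4)) :
    P {ω | Match (fun i => X i ω) k (p.map some ++ w)} =
      msum w (fun y => P {ω | Match (fun i => X i ω) k ((p ++ y).map some)}) := by
  induction w generalizing p with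
  | nil => simp [msum]
  | cons o w ih =>
    have hsome : ∀ a, P {ω | Match (fun i => X i ω) k (p.map some ++ some a :: w)} =
        msum w (fun y => P {ω | Match (fun i => X i ω) k ((p ++ a :: y).map some)}) := by
      intro a
      have e : p.map some ++ some a :: w = (p ++ [a]).map some ++ w := by simp
      rw [e, ih (p ++ [a])]
      refine msum_congr fun y => ?_
      simp
    cases o with
    | none =>
      rw [prob_match_sum hX]
      exact Finset.sum_congr rfl fun a _ => hsome a
    | some a => exact hsome a

theorem choose_Z (m n : ℕ) : 2 * (m + n + 2).choose (m + 1) * (Z m * Z n) = Z (m + n + 1) := by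
  rw [Z_eq, Z_eq, Z_eq]
  have h := Nat.choose_mul_factorial_mul_factorial (n := m + n + 2) (k := m + 1) (by omega)
  have e : m + n + 2 - (m + 1) = n + 1 := by omega
  rw [e] at h
  have e2 : m + n + 1 + 1 = m + n + 2 := by ring
  rw [e2, ← h]
  ring

theorem sum_q (u y : List (Fin 4)) : ∑ a, q (u ++ a :: y) = q u * q y := by
  have hl : ∀ a : Fin 4, (u ++ a :: y).length = u.length + y.length + 1 := by
    intro a
    simp only [List.length_append, List.length_cons]
    omega
  simp only [q, hl]
  simp only [ENNReal.div_eq_inv_mul]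
  rw [← Finset.mul_sum, ← Nat.cast_sum, sum_mid, ← choose_Z]
  simp only [Nat.cast_mul]
  have h1 : (Z u.length : ℝ≥0∞) ≠ 0 := by exact_mod_cast (Z_pos _).ne'
  have h2 : (Z y.length : ℝ≥0∞) ≠ 0 := by exact_mod_cast (Z_pos _).ne'
  have h3 : ((2 : ℕ) : ℝ≥0∞) * ((u.length + y.length + 2).choose (u.length + 1) : ℝ≥0∞) ≠ 0 := by
    have : 0 < (u.length + y.length + 2).choose (u.length + 1) := Nat.choose_pos (by omega)
    have h4 : (((u.length + y.length + 2).choose (u.length + 1) : ℕ) : ℝ≥0∞) ≠ 0 := by
      exact_mod_cast this.ne'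
    exact mul_ne_zero (by norm_num) h4
  have h5 : ((2 : ℕ) : ℝ≥0∞) * ((u.length + y.length + 2).choose (u.length + 1) : ℝ≥0∞) ≠ ⊤ :=
    ENNReal.mul_ne_top (by norm_num) (ENNReal.natCast_ne_top _)
  generalize ((2 : ℕ) : ℝ≥0∞) * ((u.length + y.length + 2).choose (u.length + 1) : ℝ≥0∞) = c at *
  rw [ENNReal.mul_inv (Or.inl h3) (Or.inl h5), ENNReal.mul_inv (Or.inl h1)
    (Or.inl (ENNReal.natCast_ne_top _))]
  calc c⁻¹ * ((Z u.length : ℝ≥0∞)⁻¹ * (Z y.length : ℝ≥0∞)⁻¹) * (c * ((B u : ℝ≥0∞) * (B y : ℝ≥0∞)))
      = (c⁻¹ * c) * ((Z u.length : ℝ≥0∞)⁻¹ * (B u : ℝ≥0∞) *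
          ((Z y.length : ℝ≥0∞)⁻¹ * (B y : ℝ≥0∞))) := by ring
    _ = _ := by rw [ENNReal.inv_mul_cancel h3 h5, one_mul]

/-- 1-dependence of the coloring -/
theorem prob_match_split (hX : IsFourColoring P X) (k : ℤ) (u : List (Fin 4))
    (v : List (Option (Fin 4))) :
    P {ω | Match (fun i => X i ω) k (u.map some ++ none :: v)} =
      q u * P {ω | Match (fun i => X i ω) (k + u.length + 1) v} := by
  have h1 := prob_match hX.measurable (P := P) k (none :: v) u
  rw [h1]
  have h2 := prob_match hX.measurable (P := P) (k + u.length + 1) v []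
  simp only [List.map_nil, List.nil_append] at h2
  rw [h2]
  change ∑ a, msum v (fun y => P {ω | Match (fun i => X i ω) k ((u ++ a :: y).map some)}) = _
  rw [msum_sum, ← msum_mul]
  refine msum_congr fun y => ?_
  simp only [prob_match_word hX]
  exact sum_q u y

theorem lift_iff (c : Fin 4) (a : Fin 3) (ha : a ≠ 2) : merge c = a ↔ c = lift a := by
  revert c a
  decide

theorem match_merge (x : ℤ → Fin 4) (k : ℤ) (w : List (Option (Fin 3)))
    (hw : Letters (· ≠ 2) w) :
    Match (fun i => merge (x i)) k w ↔ Match x k (w.map (Option.map lift)) := by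
  induction w generalizing k with
  | nil => simp [Match]
  | cons o w ih =>
    have hw' : Letters (· ≠ 2) w := fun a ha => hw a (List.mem_cons_of_mem _ ha)
    cases o with
    | none => exact ih (k + 1) hw'
    | some a =>
      change merge (x k) = a ∧ _ ↔ x k = lift a ∧ _
      rw [lift_iff _ _ (hw a (List.mem_cons_self))]
      exact and_congr Iff.rfl (ih (k + 1) hw')

theorem goodLaw_merge (hX : IsFourColoring P X) :
    GoodLaw (P.map fun ω i => merge (X i ω)) := by
  have hm : Measurable fun ω => fun i => merge (X i ω) := by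
    refine measurable_pi_lambda _ fun i => ?_
    exact (measurable_of_finite merge).comp (hX.measurable i)
  have hset : ∀ (k : ℤ) (w : List (Option (Fin 3))),
      MeasurableSet {x : ℤ → Fin 3 | Match x k w} := fun k w =>
    measurableSet_match (X := fun i (x : ℤ → Fin 3) => x i) (fun i => measurable_pi_apply i) k w
  have hmap : ∀ (k : ℤ) (w : List (Option (Fin 3))), Letters (· ≠ 2) w →
      (P.map fun ω i => merge (X i ω)) {x | Match x k w} =
        P {ω | Match (fun i => X i ω) k (w.map (Option.map lift))} := by
    intro k w hw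
    rw [Measure.map_apply hm (hset k w)]
    congr 1
    ext ω
    exact match_merge _ k w hw
  constructor
  · intro k u hu
    rw [hmap k _ (by
      intro a ha
      obtain ⟨b, hb, hb'⟩ := List.mem_map.mp ha
      cases hb'
      exact hu _ hb)]
    have e : (u.map some).map (Option.map lift) = (u.map lift).map some := by
      simp [List.map_map, Function.comp_def]
    rw [e, prob_match_word hX]
  · intro k u v hu hv
    rw [hmap k _ (by
      intro a ha
      rcases List.mem_append.mp ha with h | h
      · obtain ⟨b, hb, hb'⟩ := List.mem_map.mp h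
        cases hb'
        exact hu _ hb
      · rcases List.mem_cons.mp h with h | h
        · cases h
        · exact hv a h), hmap _ v hv]
    have e : (u.map some ++ none :: v).map (Option.map lift) =
        (u.map lift).map some ++ none :: v.map (Option.map lift) := by
      simp [List.map_map, Function.comp_def]
    rw [e, prob_match_split hX, List.length_map]

end Coloring

end Pool.Agent.Y979.FC
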