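import Pool.Agent.Y979.FC.Unif
import Pool.Agent.Y979.FC.Law

/-!
# The block factor

`T i` are independent uniform variables and `e i` independent fair bits. Let `Q i` tell whether
`i` is a local minimum of `T`. The second sequence of bits is `C i = (e i == Q i)`. The block
factor has the letter `0` at `i` when `e i = 1`, `e (i + 1) = 0`, the letter `1` when `C i = 1`,
`C (i + 1) = 0`, and the letter `2` otherwise.
-/

set_option autoImplicit false

namespace Pool.Agent.Y979.FC

open MeasureTheory Measure
open scoped ENNReal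

/-- the fair coin -/
noncomputable def coin : Measure Bool := (2 : ℝ≥0∞)⁻¹ • Measure.count

theorem coin_eq (p : Bool → Prop) [DecidablePred p] :
    coin {e | p e} = (if p true then 2⁻¹ else 0) + (if p false then 2⁻¹ else 0) := by
  rw [coin, Measure.smul_apply, smul_eq_mul]
  have h : {e : Bool | p e} = ((Finset.univ.filter p : Finset Bool) : Set Bool) := by
    ext e
    simp
  rw [h, Measure.count_apply_finset, Fintype.univ_bool, Finset.filter_insert,
    Finset.filter_singleton]
  by_cases h1 : p true <;> by_cases h2 : p false <;> simp [h1, h2]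
  · rw [ENNReal.inv_mul_cancel (by norm_num) (by norm_num), ENNReal.inv_two_add_inv_two]

theorem letter_cases : ∀ a : Fin 3, a ≠ 2 → a = 0 ∨ a = 1 := by decide

instance : IsProbabilityMeasure coin := by
  constructor
  have h := coin_eq (fun _ => True)
  simp only [if_true, ENNReal.inv_two_add_inv_two] at h
  rw [← h]
  congr 1

/-- the law of a sequence of independent fair bits -/
noncomputable def PB : Measure (ℤ → Bool) := infinitePi fun _ : ℤ => coin

instance : IsProbabilityMeasure PB := by
  unfold PB
  infer_instance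

/-- the bit of a local minimum -/
noncomputable def qbit (a b c : ℝ) : Bool := decide (b < a ∧ b < c)

/-- the function of four consecutive pairs -/
noncomputable def bf (u : Fin 4 → ℝ × Bool) : Fin 3 :=
  if (u 1).2 = true ∧ (u 2).2 = false then 0
  else if ((u 1).2 == qbit (u 0).1 (u 1).1 (u 2).1) = true ∧
      ((u 2).2 == qbit (u 1).1 (u 2).1 (u 3).1) = false then 1
  else 2

theorem measurable_qbit {α : Type*} [MeasurableSpace α] {a b c : α → ℝ} (ha : Measurable a)
    (hb : Measurable b) (hc : Measurable c) : Measurable fun x => qbit (a x) (b x) (c x) := by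
  refine measurable_to_bool ?_
  have : (fun x => qbit (a x) (b x) (c x)) ⁻¹' {true} = {x | b x < a x} ∩ {x | b x < c x} := by
    ext x
    simp [qbit]
  rw [this]
  exact (measurableSet_lt hb ha).inter (measurableSet_lt hb hc)

theorem measurable_bf : Measurable bf := by
  have h2 : ∀ i : Fin 4, Measurable fun u : Fin 4 → ℝ × Bool => (u i).2 := fun i =>
    (measurable_pi_apply i).snd
  have h1 : ∀ i : Fin 4, Measurable fun u : Fin 4 → ℝ × Bool => (u i).1 := fun i =>
    (measurable_pi_apply i).fst
  have hb : ∀ {f : (Fin 4 → ℝ × Bool) → Bool}, Measurable f → ∀ b, MeasurableSet {u | f u = b} :=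
    fun hf b => hf (measurableSet_singleton b)
  have hbeq : ∀ {f g : (Fin 4 → ℝ × Bool) → Bool}, Measurable f → Measurable g →
      Measurable fun u => (f u == g u) := fun hf hg =>
    (measurable_of_finite (fun z : Bool × Bool => (z.1 == z.2))).comp (hf.prodMk hg)
  unfold bf
  refine Measurable.ite ((hb (h2 1) true).inter (hb (h2 2) false)) measurable_const ?_
  refine Measurable.ite (((hb (hbeq (h2 1) (measurable_qbit (h1 0) (h1 1) (h1 2))) true)).inter
    (hb (hbeq (h2 2) (measurable_qbit (h1 1) (h1 2) (h1 3))) false)) measurable_const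
    measurable_const

/-- the block factor as a function of the two sequences -/
noncomputable def Y (T : ℤ → ℝ) (e : ℤ → Bool) (i : ℤ) : Fin 3 :=
  bf (fun j : Fin 4 => (T (i + j), e (i + j)))

/-- the bit of a local minimum at a site -/
noncomputable def Qb (T : ℤ → ℝ) (i : ℤ) : Bool := qbit (T (i - 1)) (T i) (T (i + 1))

/-- the condition on the bit at a site: `x` is the letter that ends there, `y` the one that
starts there -/
def ok (x y : Option (Fin 3)) (q e : Bool) : Prop :=
  (x = some 0 → e = false) ∧ (x = some 1 → (e == q) = false) ∧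
    (y = some 0 → e = true) ∧ (y = some 1 → (e == q) = true)

instance (x y : Option (Fin 3)) (q e : Bool) : Decidable (ok x y q e) := by
  unfold ok
  infer_instance

theorem Y_eq_zero (T : ℤ → ℝ) (e : ℤ → Bool) (i : ℤ) :
    Y T e i = 0 ↔ e (i + 1) = true ∧ e (i + 2) = false := by
  unfold Y bf
  have h1 : ((1 : Fin 4) : ℤ) = 1 := rfl
  simp only [Fin.val_one, Fin.val_two, Nat.cast_one, Nat.cast_ofNat]
  split_ifs with h2 h3
  · simp [h2]
  · simp [h2]
  · simp [h2]

theorem Qb_succ {T : ℤ → ℝ} {i : ℤ} (h1 : Qb T i = true) (h2 : Qb T (i + 1) = true) : False := by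
  simp only [Qb, qbit, decide_eq_true_eq] at h1 h2
  have e : i + 1 - 1 = i := by ring
  rw [e] at h2
  exact lt_asymm h1.2 h2.1

theorem Y_eq_one (T : ℤ → ℝ) (e : ℤ → Bool) (i : ℤ) :
    Y T e i = 1 ↔ (e (i + 1) == Qb T (i + 1)) = true ∧ (e (i + 2) == Qb T (i + 2)) = false := by
  have e0 : i + ((0 : Fin 4) : ℕ) = i + 1 - 1 := by simp
  have e1 : i + ((1 : Fin 4) : ℕ) = i + 1 := by simp
  have e2 : i + ((2 : Fin 4) : ℕ) = i + 2 := by simp
  have e3 : i + ((3 : Fin 4) : ℕ) = i + 2 + 1 := by
    have : ((3 : Fin 4) : ℕ) = 3 := rfl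
    rw [this]
    push_cast
    ring
  have e4 : i + 1 + 1 = i + 2 := by ring
  have e5 : i + 2 - 1 = i + 1 := by ring
  unfold Y bf
  simp only [e0, e1, e2, e3]
  have hq1 : qbit (T (i + 1 - 1)) (T (i + 1)) (T (i + 2)) = Qb T (i + 1) := by rw [Qb, e4]
  have hq2 : qbit (T (i + 1)) (T (i + 2)) (T (i + 2 + 1)) = Qb T (i + 2) := by rw [Qb, e5]
  rw [hq1, hq2]
  have hQ : ¬ (Qb T (i + 1) = true ∧ Qb T (i + 2) = true) := by
    rintro ⟨h1, h2⟩
    rw [← e4] at h2
    exact Qb_succ h1 h2
  clear hq1 hq2
  generalize Qb T (i + 1) = q1 at *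
  generalize Qb T (i + 2) = q2 at *
  generalize e (i + 1) = b1
  generalize e (i + 2) = b2
  revert hQ
  revert q1 q2 b1 b2
  decide

/-- the conditions at all the sites of a pattern -/
def SO (T : ℤ → ℝ) (e : ℤ → Bool) : Option (Fin 3) → ℤ → List (Option (Fin 3)) → Prop
  | x, j, [] => ok x none (Qb T j) (e j)
  | x, j, y :: w => ok x y (Qb T j) (e j) ∧ SO T e y (j + 1) w

theorem match_iff_SO (T : ℤ → ℝ) (e : ℤ → Bool) (w : List (Option (Fin 3)))
    (hw : Letters (· ≠ 2) w) (k : ℤ) (x : Option (Fin 3)) :
    ((x = some 0 → e (k + 1) = false) ∧ (x = some 1 → (e (k + 1) == Qb T (k + 1)) = false)) ∧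
      Match (Y T e) k w ↔ SO T e x (k + 1) w := by
  induction w generalizing k x with
  | nil =>
    simp only [Match, SO, ok, and_true]
    constructor
    · rintro ⟨h1, h2⟩
      exact ⟨h1, h2, fun h => by simp at h, fun h => by simp at h⟩
    · rintro ⟨h1, h2, _⟩
      exact ⟨h1, h2⟩
  | cons y w ih =>
    have hw' : Letters (· ≠ 2) w := fun a ha => hw a (List.mem_cons_of_mem _ ha)
    have ih' := ih hw' (k + 1) y
    have e4 : k + 1 + 1 = k + 2 := by ring
    rw [e4] at ih'
    change _ ↔ ok x y (Qb T (k + 1)) (e (k + 1)) ∧ SO T e y (k + 1 + 1) w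
    rw [e4, ← ih']
    cases y with
    | none =>
      change _ ∧ Match (Y T e) (k + 1) w ↔ _
      simp only [ok]
      constructor
      · rintro ⟨h1, h2⟩
        exact ⟨⟨h1.1, h1.2, fun h => by simp at h, fun h => by simp at h⟩,
          ⟨fun h => by simp at h, fun h => by simp at h⟩, h2⟩
      · rintro ⟨h1, h2, h3⟩
        exact ⟨⟨h1.1, h1.2.1⟩, h3⟩
    | some a =>
      change _ ∧ (Y T e k = a ∧ Match (Y T e) (k + 1) w) ↔ _
      have ha : a = 0 ∨ a = 1 := letter_cases a (hw a (List.mem_cons_self))
      rcases ha with rfl | rfl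
      · rw [Y_eq_zero]
        simp only [ok]
        constructor
        · rintro ⟨h1, ⟨h2, h3⟩, h4⟩
          exact ⟨⟨h1.1, h1.2, fun _ => h2, fun h => by simp at h⟩,
            ⟨fun _ => h3, fun h => by simp at h⟩, h4⟩
        · rintro ⟨⟨h1, h2, h3, _⟩, ⟨h4, _⟩, h5⟩
          exact ⟨⟨h1, h2⟩, ⟨h3 trivial, h4 trivial⟩, h5⟩
      · rw [Y_eq_one]
        simp only [ok]
        constructor
        · rintro ⟨h1, ⟨h2, h3⟩, h4⟩
          exact ⟨⟨h1.1, h1.2, fun h => by simp at h, fun _ => h2⟩,
            ⟨fun h => by simp at h, fun _ => h3⟩, h4⟩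
        · rintro ⟨⟨h1, h2, _, h3⟩, ⟨_, h4⟩, h5⟩
          exact ⟨⟨h1, h2⟩, ⟨h3 trivial, h4 trivial⟩, h5⟩

/-- the probability of the condition at one site -/
noncomputable def cc (x y : Option (Fin 3)) (q : Bool) : ℝ≥0∞ := coin {e | ok x y q e}

theorem cc_none_none (q : Bool) : cc none none q = 1 := by
  rw [cc, coin_eq]
  have h : ∀ q e, ok none none q e := by decide
  rw [if_pos (h _ _), if_pos (h _ _), ENNReal.inv_two_add_inv_two]

theorem cc_none_some (y : Fin 3) (hy : y ≠ 2) (q : Bool) : cc none (some y) q = 2⁻¹ := by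
  rw [cc, coin_eq]
  have h : ∀ (y : Fin 3) (q : Bool), y ≠ 2 → (ok none (some y) q true ∧
      ¬ ok none (some y) q false) ∨ (¬ ok none (some y) q true ∧ ok none (some y) q false) := by
    decide
  rcases h y q hy with ⟨h1, h2⟩ | ⟨h1, h2⟩
  · rw [if_pos h1, if_neg h2, add_zero]
  · rw [if_neg h1, if_pos h2, zero_add]

theorem cc_some_none (x : Fin 3) (hx : x ≠ 2) (q : Bool) : cc (some x) none q = 2⁻¹ := by
  rw [cc, coin_eq]
  have h : ∀ (y : Fin 3) (q : Bool), y ≠ 2 → (ok (some y) none q true ∧
      ¬ ok (some y) none q false) ∨ (¬ ok (some y) none q true ∧ ok (some y) none q false) := by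
    decide
  rcases h x q hx with ⟨h1, h2⟩ | ⟨h1, h2⟩
  · rw [if_pos h1, if_neg h2, add_zero]
  · rw [if_neg h1, if_pos h2, zero_add]

theorem cc_some_some (x y : Fin 3) (hx : x ≠ 2) (hy : y ≠ 2) (q : Bool) :
    cc (some x) (some y) q = if x ≠ y ∧ q = false then 2⁻¹ else 0 := by
  rw [cc, coin_eq]
  by_cases hc : x ≠ y ∧ q = false
  · rw [if_pos hc]
    have h : ∀ (x y : Fin 3) (q : Bool), x ≠ 2 → y ≠ 2 → x ≠ y ∧ q = false →
        (ok (some x) (some y) q true ∧ ¬ ok (some x) (some y) q false) ∨
        (¬ ok (some x) (some y) q true ∧ ok (some x) (some y) q false) := by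
      decide
    rcases h x y q hx hy hc with ⟨h1, h2⟩ | ⟨h1, h2⟩
    · rw [if_pos h1, if_neg h2, add_zero]
    · rw [if_neg h1, if_pos h2, zero_add]
  · rw [if_neg hc]
    have h : ∀ (x y : Fin 3) (q : Bool), x ≠ 2 → y ≠ 2 → ¬ (x ≠ y ∧ q = false) →
        ¬ ok (some x) (some y) q true ∧ ¬ ok (some x) (some y) q false := by
      decide
    obtain ⟨h1, h2⟩ := h x y q hx hy hc
    rw [if_neg h1, if_neg h2, add_zero]

/-- the product over the sites -/
noncomputable def Ph (T : ℤ → ℝ) : Option (Fin 3) → ℤ → List (Option (Fin 3)) → ℝ≥0∞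
  | x, j, [] => cc x none (Qb T j)
  | x, j, y :: w => cc x y (Qb T j) * Ph T y (j + 1) w

theorem measurableSet_ok (x y : Option (Fin 3)) (q : Bool) (j : ℤ) :
    MeasurableSet {e : ℤ → Bool | ok x y q (e j)} := by
  have : {e : ℤ → Bool | ok x y q (e j)} = (fun e : ℤ → Bool => e j) ⁻¹' {b | ok x y q b} := rfl
  rw [this]
  exact measurable_pi_apply j (Set.toFinite _).measurableSet

theorem measurableSet_SO (T : ℤ → ℝ) (x : Option (Fin 3)) (j : ℤ) (w : List (Option (Fin 3))) :
    MeasurableSet {e : ℤ → Bool | SO T e x j w} := by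
  induction w generalizing x j with
  | nil => exact measurableSet_ok _ _ _ _
  | cons y w ih => exact (measurableSet_ok _ _ _ _).inter (ih y (j + 1))

theorem SO_congr (T : ℤ → ℝ) {e e' : ℤ → Bool} (w : List (Option (Fin 3))) (x : Option (Fin 3))
    (j : ℤ) (h : ∀ i, j ≤ i → e i = e' i) : SO T e x j w ↔ SO T e' x j w := by
  induction w generalizing x j with
  | nil =>
    change ok _ _ _ (e j) ↔ ok _ _ _ (e' j)
    rw [h j le_rfl]
  | cons y w ih =>
    change ok _ _ _ (e j) ∧ _ ↔ ok _ _ _ (e' j) ∧ _
    rw [h j le_rfl, ih y (j + 1) (fun i hi => h i (by omega))]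

theorem PB_SO (T : ℤ → ℝ) (x : Option (Fin 3)) (j : ℤ) (w : List (Option (Fin 3))) :
    PB {e : ℤ → Bool | SO T e x j w} = Ph T x j w := by
  induction w generalizing x j with
  | nil =>
    have : {e : ℤ → Bool | SO T e x j []} =
        (fun e : ℤ → Bool => e j) ⁻¹' {b | ok x none (Qb T j) b} := rfl
    rw [this]
    exact (measurePreserving_eval_infinitePi (fun _ : ℤ => coin) j).measure_preimage
      (Set.toFinite _).measurableSet.nullMeasurableSet
  | cons y w ih =>
    have hm : Measurable ({e : ℤ → Bool | SO T e x j (y :: w)}.indicator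
        (1 : (ℤ → Bool) → ℝ≥0∞)) := measurable_one.indicator (measurableSet_SO T x j (y :: w))
    rw [← lintegral_indicator_one (measurableSet_SO T x j (y :: w))]
    unfold PB
    rw [lintegral_resample coin j hm]
    have h1 : ∀ (e : ℤ → Bool) (s : Bool), {e : ℤ → Bool | SO T e x j (y :: w)}.indicator
        (1 : (ℤ → Bool) → ℝ≥0∞) (Function.update e j s) =
        {b | ok x y (Qb T j) b}.indicator (1 : Bool → ℝ≥0∞) s *
          {e : ℤ → Bool | SO T e y (j + 1) w}.indicator (1 : (ℤ → Bool) → ℝ≥0∞) e := by
      intro e s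
      have h2 : SO T (Function.update e j s) x j (y :: w) ↔
          ok x y (Qb T j) s ∧ SO T e y (j + 1) w := by
        change ok x y (Qb T j) (Function.update e j s j) ∧ _ ↔ _
        rw [Function.update_self, SO_congr T w y (j + 1) (e' := e)]
        intro i hi
        rw [Function.update_of_ne]
        omega
      by_cases h3 : ok x y (Qb T j) s
      · by_cases h4 : SO T e y (j + 1) w
        · rw [Set.indicator_of_mem (by exact h2.mpr ⟨h3, h4⟩), Set.indicator_of_mem (by exact h3),
            Set.indicator_of_mem (by exact h4)]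
          simp
        · rw [Set.indicator_of_notMem (by exact fun h => h4 (h2.mp h).2),
            Set.indicator_of_notMem (s := {e : ℤ → Bool | SO T e y (j + 1) w}) (by exact h4)]
          simp
      · rw [Set.indicator_of_notMem (by exact fun h => h3 (h2.mp h).1),
          Set.indicator_of_notMem (s := {b | ok x y (Qb T j) b}) (by exact h3)]
        simp
    simp only [h1]
    have h5 : ∀ e : ℤ → Bool, ∫⁻ s, {b | ok x y (Qb T j) b}.indicator (1 : Bool → ℝ≥0∞) s *
          {e : ℤ → Bool | SO T e y (j + 1) w}.indicator (1 : (ℤ → Bool) → ℝ≥0∞) e ∂coin =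
        cc x y (Qb T j) *
          {e : ℤ → Bool | SO T e y (j + 1) w}.indicator (1 : (ℤ → Bool) → ℝ≥0∞) e := by
      intro e
      rw [lintegral_mul_const _ (measurable_of_finite _),
        lintegral_indicator_one (Set.toFinite _).measurableSet]
      rfl
    simp only [h5]
    rw [lintegral_const_mul _ (measurable_one.indicator (measurableSet_SO T y (j + 1) w)),
      lintegral_indicator_one (measurableSet_SO T y (j + 1) w)]
    change cc x y (Qb T j) * PB _ = _
    rw [ih y (j + 1)]
    rfl

theorem measurable_Qb (j : ℤ) : Measurable fun T : ℤ → ℝ => Qb T j :=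
  measurable_qbit (measurable_pi_apply _) (measurable_pi_apply _) (measurable_pi_apply _)

theorem measurable_Ph (x : Option (Fin 3)) (j : ℤ) (w : List (Option (Fin 3))) :
    Measurable fun T : ℤ → ℝ => Ph T x j w := by
  have h : ∀ x y j, Measurable fun T : ℤ → ℝ => cc x y (Qb T j) := fun x y j =>
    (measurable_of_finite (cc x y)).comp (measurable_Qb j)
  induction w generalizing x j with
  | nil => exact h _ _ _
  | cons y w ih => exact (h x y j).mul (ih y (j + 1))

theorem Qb_congr {T T' : ℤ → ℝ} {j : ℤ} (h1 : T (j - 1) = T' (j - 1)) (h2 : T j = T' j)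
    (h3 : T (j + 1) = T' (j + 1)) : Qb T j = Qb T' j := by
  rw [Qb, Qb, h1, h2, h3]

theorem Ph_congr_right {T T' : ℤ → ℝ} (w : List (Option (Fin 3))) (x : Option (Fin 3)) (j : ℤ)
    (h : ∀ i, j - 1 ≤ i → T i = T' i) : Ph T x j w = Ph T' x j w := by
  have hq : Qb T j = Qb T' j := Qb_congr (h _ le_rfl) (h _ (by omega)) (h _ (by omega))
  induction w generalizing x j with
  | nil =>
    change cc x none (Qb T j) = cc x none (Qb T' j)
    rw [hq]
  | cons y w ih =>
    change cc x y (Qb T j) * _ = cc x y (Qb T' j) * _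
    rw [hq, ih y (j + 1) (fun i hi => h i (by omega))
      (Qb_congr (h _ (by omega)) (h _ (by omega)) (h _ (by omega)))]

theorem cc_none_const {y : Option (Fin 3)} (hy : ∀ a, y = some a → a ≠ 2) (q q' : Bool) :
    cc none y q = cc none y q' := by
  cases y with
  | none => rw [cc_none_none, cc_none_none]
  | some a => rw [cc_none_some a (hy a rfl), cc_none_some a (hy a rfl)]

theorem cc_const_none {x : Option (Fin 3)} (hx : ∀ a, x = some a → a ≠ 2) (q q' : Bool) :
    cc x none q = cc x none q' := by
  cases x with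
  | none => rw [cc_none_none, cc_none_none]
  | some a => rw [cc_some_none a (hx a rfl), cc_some_none a (hx a rfl)]

theorem Ph_congr_none {T T' : ℤ → ℝ} {w : List (Option (Fin 3))} (hw : Letters (· ≠ 2) w) (j : ℤ)
    (h : ∀ i, j ≤ i → T i = T' i) : Ph T none j w = Ph T' none j w := by
  cases w with
  | nil =>
    change cc none none (Qb T j) = cc none none (Qb T' j)
    rw [cc_none_none, cc_none_none]
  | cons y w =>
    change cc none y (Qb T j) * _ = cc none y (Qb T' j) * _
    have hy : ∀ a, y = some a → a ≠ 2 := fun a ha => hw a (by rw [ha]; exact List.mem_cons_self)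
    rw [cc_none_const hy (Qb T j) (Qb T' j),
      Ph_congr_right w y (j + 1) (fun i hi => h i (by omega))]

theorem Ph_congr_left {T T' : ℤ → ℝ} (u : List (Fin 3)) (hu : ∀ a ∈ u, a ≠ 2)
    (x : Option (Fin 3)) (hx : ∀ a, x = some a → a ≠ 2) (j : ℤ)
    (h : ∀ i, i ≤ j + u.length → T i = T' i) :
    Ph T x j (u.map some) = Ph T' x j (u.map some) := by
  induction u generalizing x j with
  | nil => exact cc_const_none hx _ _
  | cons a u ih =>
    have hlen : ((a :: u).length : ℤ) = u.length + 1 := by simp
    change cc x (some a) (Qb T j) * Ph T (some a) (j + 1) (u.map some) =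
      cc x (some a) (Qb T' j) * Ph T' (some a) (j + 1) (u.map some)
    rw [Qb_congr (h _ (by omega)) (h _ (by omega)) (h _ (by omega)),
      ih (fun b hb => hu b (List.mem_cons_of_mem _ hb)) (some a)
        (fun b hb => by cases hb; exact hu a List.mem_cons_self) (j + 1)
        (fun i hi => h i (by omega))]

theorem Ph_split (T : ℤ → ℝ) (u v : List (Option (Fin 3))) (x : Option (Fin 3)) (j : ℤ) :
    Ph T x j (u ++ none :: v) = Ph T x j u * Ph T none (j + u.length + 1) v := by
  induction u generalizing x j with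
  | nil => simp [Ph]
  | cons y u ih =>
    change cc x y (Qb T j) * Ph T y (j + 1) (u ++ none :: v) =
      cc x y (Qb T j) * Ph T y (j + 1) u * _
    rw [ih, mul_assoc]
    have e : j + 1 + (u.length : ℤ) + 1 = j + ((y :: u).length : ℤ) + 1 := by
      simp only [List.length_cons]
      push_cast
      ring
    rw [e]

/-- a word after a letter -/
theorem Ph_word (T : ℤ → ℝ) (u : List (Fin 3)) (hu : ∀ a ∈ u, a ≠ 2) (x : Fin 3) (hx : x ≠ 2)
    (j : ℤ) [Decidable ((x :: u).IsChain (· ≠ ·) ∧ ∀ i : ℕ, i < u.length → Qb T (j + i) = false)] :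
    Ph T (some x) j (u.map some) =
      if (x :: u).IsChain (· ≠ ·) ∧ ∀ i : ℕ, i < u.length → Qb T (j + i) = false
      then (2⁻¹) ^ (u.length + 1) else 0 := by
  classical
  induction u generalizing x j with
  | nil =>
    rw [if_pos ⟨List.isChain_singleton _, fun i hi => by simp at hi⟩]
    change cc (some x) none (Qb T j) = _
    rw [cc_some_none x hx]
    simp
  | cons y u ih =>
    have hy : y ≠ 2 := hu y List.mem_cons_self
    change cc (some x) (some y) (Qb T j) * Ph T (some y) (j + 1) (u.map some) = _
    rw [cc_some_some x y hx hy, ih (fun b hb => hu b (List.mem_cons_of_mem _ hb)) y hy (j + 1)]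
    have key : ((x :: y :: u).IsChain (· ≠ ·) ∧
        ∀ i : ℕ, i < (y :: u).length → Qb T (j + i) = false) ↔
        (x ≠ y ∧ Qb T j = false) ∧ (y :: u).IsChain (· ≠ ·) ∧
          ∀ i : ℕ, i < u.length → Qb T (j + 1 + i) = false := by
      rw [List.isChain_cons_cons]
      constructor
      · rintro ⟨⟨h1, h2⟩, h3⟩
        refine ⟨⟨h1, by simpa using h3 0 (by simp)⟩, h2, fun i hi => ?_⟩
        have := h3 (i + 1) (by simpa using hi)
        rw [← this]
        congr 1
        push_cast
        ring
      · rintro ⟨⟨h1, h2⟩, h3, h4⟩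
        refine ⟨⟨h1, h3⟩, fun i hi => ?_⟩
        cases i with
        | zero => simpa using h2
        | succ i =>
          have := h4 i (by simpa using hi)
          rw [← this]
          congr 1
          push_cast
          ring
    by_cases h1 : x ≠ y ∧ Qb T j = false
    · by_cases h2 : (y :: u).IsChain (· ≠ ·) ∧ ∀ i : ℕ, i < u.length → Qb T (j + 1 + i) = false
      · rw [if_pos h1, if_pos h2, if_pos (key.mpr ⟨h1, h2⟩)]
        rw [List.length_cons, pow_succ' _ (u.length + 1)]
      · rw [if_neg h2, if_neg (fun h => h2 (key.mp h).2), mul_zero]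
    · rw [if_neg h1, if_neg (fun h => h1 (key.mp h).1), zero_mul]

theorem lmin_iff (T : ℤ → ℝ) (i : ℤ) : Qb T i = true ↔ LMin T i := by
  simp [Qb, qbit, LMin]

theorem noMin_iff (T : ℤ → ℝ) (j : ℤ) (m : ℕ) :
    (∀ i : ℕ, i < m → Qb T (j + 1 + i) = false) ↔ NoMin j (m + 1) T := by
  constructor
  · intro h i h1 h2 h3
    have := h (i - 1) (by omega)
    have e : j + 1 + ((i - 1 : ℕ) : ℤ) = j + i := by omega
    rw [e] at this
    rw [← lmin_iff, this] at h3
    exact absurd h3 (by decide)
  · intro h i hi
    have := h (i + 1) (by omega) (by omega)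
    rw [← lmin_iff] at this
    have e : j + ((i + 1 : ℕ) : ℤ) = j + 1 + i := by push_cast; ring
    rw [e] at this
    simpa using this

theorem isChain_lift (u : List (Fin 3)) :
    (u.map lift).IsChain (· ≠ ·) ↔ u.IsChain (· ≠ ·) := by
  have hl : ∀ a b : Fin 3, lift a ≠ lift b ↔ a ≠ b := by decide
  rw [List.isChain_map]
  simp only [hl]

/-- the probability of a word -/
theorem lintegral_Ph_word (u : List (Fin 3)) (hu : ∀ a ∈ u, a ≠ 2) (j : ℤ) :
    ∫⁻ T, Ph T none j (u.map some) ∂PT = q (u.map lift) := by
  classical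
  cases u with
  | nil =>
    change ∫⁻ T, cc none none (Qb T j) ∂PT = q []
    simp only [cc_none_none]
    rw [lintegral_const, measure_univ, q]
    simp [B_nil, Z_zero]
  | cons x u =>
    have hx : x ≠ 2 := hu x List.mem_cons_self
    have hu' : ∀ a ∈ u, a ≠ 2 := fun a ha => hu a (List.mem_cons_of_mem _ ha)
    have h1 : ∀ T, Ph T none j ((x :: u).map some) =
        {T : ℤ → ℝ | NoMin j (u.length + 1) T}.indicator (fun _ =>
          if (x :: u).IsChain (· ≠ ·) then (2⁻¹ : ℝ≥0∞) ^ (u.length + 2) else 0) T := by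
      intro T
      change cc none (some x) (Qb T j) * Ph T (some x) (j + 1) (u.map some) = _
      rw [cc_none_some x hx, Ph_word T u hu' x hx (j + 1)]
      simp only [noMin_iff]
      by_cases h2 : (x :: u).IsChain (· ≠ ·)
      · by_cases h3 : NoMin j (u.length + 1) T
        · rw [if_pos ⟨h2, h3⟩, Set.indicator_of_mem (by exact h3), if_pos h2, ← pow_succ']
        · rw [if_neg (fun h => h3 h.2), Set.indicator_of_notMem (by exact h3), mul_zero]
      · rw [if_neg (fun h => h2 h.1), if_neg h2, mul_zero]
        by_cases h3 : NoMin j (u.length + 1) T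
        · rw [Set.indicator_of_mem (by exact h3)]
        · rw [Set.indicator_of_notMem (by exact h3)]
    simp only [h1]
    rw [lintegral_indicator (measurableSet_noMin _ _), setLIntegral_const, PT_noMin]
    by_cases h2 : (x :: u).IsChain (· ≠ ·)
    · rw [if_pos h2, q]
      have h3 : ((x :: u).map lift).IsChain (· ≠ ·) := (isChain_lift _).mpr h2
      have h4 : ∀ a ∈ (x :: u).map lift, a = 0 ∨ a = 1 := by
        intro a ha
        obtain ⟨b, hb, rfl⟩ := List.mem_map.mp ha
        rcases letter_cases b (hu b hb) with rfl | rfl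
        · exact Or.inl rfl
        · exact Or.inr rfl
      rw [B_two h3 (by simp) h4, Z_eq]
      simp only [List.length_map, List.length_cons, Nat.add_sub_cancel]
      rw [← ENNReal.ofReal_natCast, ← ENNReal.ofReal_natCast,
        ← ENNReal.ofReal_div_of_pos (by positivity)]
      have h5 : (2⁻¹ : ℝ≥0∞) = ENNReal.ofReal (2⁻¹) := by
        rw [ENNReal.ofReal_inv_of_pos (by norm_num)]
        norm_num
      rw [h5, ← ENNReal.ofReal_pow (by norm_num), ← ENNReal.ofReal_mul (by positivity)]
      congr 1
      push_cast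
      have hf : ((u.length + 1 + 1).factorial : ℝ) ≠ 0 := by positivity
      rw [inv_pow]
      field_simp
      ring
    · rw [if_neg h2, zero_mul, q, B_of_not]
      · simp
      · rw [isChain_lift]
        exact h2

/-- independence of the two sides of a free position -/
theorem lintegral_Ph_split (u : List (Fin 3)) (hu : ∀ a ∈ u, a ≠ 2) (v : List (Option (Fin 3)))
    (hv : Letters (· ≠ 2) v) (j : ℤ) :
    ∫⁻ T, Ph T none j (u.map some ++ none :: v) ∂PT =
      (∫⁻ T, Ph T none j (u.map some) ∂PT) * ∫⁻ T, Ph T none (j + u.length + 1) v ∂PT := by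
  have hm := measurable_Ph none j (u.map some ++ none :: v)
  unfold PT
  rw [lintegral_splice unif (fun i => i ≤ j + u.length) hm]
  have h1 : ∀ T T' : ℤ → ℝ, Ph (splice (fun i => i ≤ j + u.length) (T, T')) none j
      (u.map some ++ none :: v) =
      Ph T none j (u.map some) * Ph T' none (j + u.length + 1) v := by
    intro T T'
    rw [Ph_split, List.length_map]
    congr 1
    · refine Ph_congr_left u hu none (fun a ha => by cases ha) j fun i hi => ?_
      simp only [splice, if_pos hi]
    · refine Ph_congr_none hv _ fun i hi => ?_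
      simp only [splice]
      rw [if_neg (by omega)]
  simp only [h1]
  have h2 : ∀ T : ℤ → ℝ, ∫⁻ T', Ph T none j (u.map some) * Ph T' none (j + u.length + 1) v
      ∂(infinitePi fun _ : ℤ => unif) = Ph T none j (u.map some) *
        ∫⁻ T', Ph T' none (j + u.length + 1) v ∂(infinitePi fun _ : ℤ => unif) := fun T =>
    lintegral_const_mul _ (measurable_Ph _ _ _)
  simp only [h2]
  exact lintegral_mul_const _ (measurable_Ph _ _ _)

/-- the law of the block factor -/
noncomputable def lawY : Measure (ℤ → Fin 3) :=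
  Measure.map (fun (u : ℤ → ℝ × Bool) (i : ℤ) => bf (fun j : Fin 4 => u (i + j)))
    (Measure.infinitePi fun _ : ℤ => unif.prod coin)

theorem measurable_block : Measurable (fun (u : ℤ → ℝ × Bool) (i : ℤ) =>
    bf (fun j : Fin 4 => u (i + j))) := by
  refine measurable_pi_lambda _ fun i => measurable_bf.comp ?_
  exact measurable_pi_lambda _ fun j => measurable_pi_apply _

instance : IsProbabilityMeasure lawY :=
  Measure.isProbabilityMeasure_map measurable_block.aemeasurable

theorem lawY_match (k : ℤ) (w : List (Option (Fin 3))) (hw : Letters (· ≠ 2) w) :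
    lawY {x | Match x k w} = ∫⁻ T, Ph T none (k + 1) w ∂PT := by
  have hset : MeasurableSet {x : ℤ → Fin 3 | Match x k w} :=
    measurableSet_match (X := fun i (x : ℤ → Fin 3) => x i) (fun i => measurable_pi_apply i) k w
  rw [lawY, Measure.map_apply measurable_block hset, ← map_zip unif coin,
    Measure.map_apply measurable_zip (measurable_block hset),
    Measure.prod_apply (measurable_zip (measurable_block hset))]
  refine lintegral_congr fun T => ?_
  rw [← PB_SO]
  change PB _ = PB _
  congr 1
  ext e
  have h := match_iff_SO T e w hw k none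
  simp only [reduceCtorEq, false_imp_iff, true_and] at h
  exact h

theorem goodLaw_lawY : GoodLaw lawY := by
  constructor
  · intro k u hu
    rw [lawY_match k _ (by
      intro a ha
      obtain ⟨b, hb, hb'⟩ := List.mem_map.mp ha
      cases hb'
      exact hu _ hb), lintegral_Ph_word u hu]
  · intro k u v hu hv
    rw [lawY_match k _ (by
      intro a ha
      rcases List.mem_append.mp ha with h | h
      · obtain ⟨b, hb, hb'⟩ := List.mem_map.mp h
        cases hb'
        exact hu _ hb
      · rcases List.mem_cons.mp h with h | h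
        · cases h
        · exact hv a h), lintegral_Ph_split u hu v hv, lintegral_Ph_word u hu,
      lawY_match _ v hv]
    congr 1
    have e : k + 1 + (u.length : ℤ) + 1 = k + u.length + 1 + 1 := by ring
    rw [e]

/-- the merged coloring has the law of the block factor -/
theorem law_merge {Ω : Type*} [MeasurableSpace Ω] {P : Measure Ω} [IsProbabilityMeasure P]
    {X : ℤ → Ω → Fin 4} (hX : IsFourColoring P X) :
    (P.map fun ω i => merge (X i ω)) = lawY := by
  have hm : Measurable fun ω => fun i => merge (X i ω) := by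
    refine measurable_pi_lambda _ fun i => ?_
    exact (measurable_of_finite merge).comp (hX.measurable i)
  have : IsProbabilityMeasure (P.map fun ω i => merge (X i ω)) :=
    Measure.isProbabilityMeasure_map hm.aemeasurable
  exact goodLaw_unique (goodLaw_merge hX) goodLaw_lawY

end Pool.Agent.Y979.FC
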