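import Pool.Agent.Y979.FC.Defs

/-!
# Combinatorics of the weights `B`
-/

set_option autoImplicit false

namespace Pool.Agent.Y979.FC

open Finset

theorem B_nil : B [] = 1 := by
  rw [B]
  simp

theorem B_of_chain {x : List (Fin 4)} (hx : x ≠ []) (h : x.IsChain (· ≠ ·)) :
    B x = ∑ i ∈ range x.length, B (x.eraseIdx i) := by
  rw [B, if_neg hx, if_pos h]
  rw [Finset.sum_range]

theorem B_of_not {x : List (Fin 4)} (h : ¬ x.IsChain (· ≠ ·)) : B x = 0 := by
  rw [B, if_neg, if_neg h]
  rintro rfl
  exact h List.IsChain.nil

/-- the sum of the weights after removal of one letter, for the word `u ++ a :: v` -/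
def G (u v : List (Fin 4)) (a : Fin 4) : ℕ :=
  (∑ i ∈ range u.length, B (u.eraseIdx i ++ a :: v)) + B (u ++ v) +
    ∑ j ∈ range v.length, B (u ++ a :: v.eraseIdx j)

theorem B_mid_of_chain {u v : List (Fin 4)} {a : Fin 4} (h : (u ++ a :: v).IsChain (· ≠ ·)) :
    B (u ++ a :: v) = G u v a := by
  rw [B_of_chain (by simp) h, G]
  have hl : (u ++ a :: v).length = u.length + 1 + v.length := by
    simp only [List.length_append, List.length_cons]
    omega
  rw [hl, Finset.sum_range_add, Finset.sum_range_succ]
  congr 1
  · congr 1
    · refine Finset.sum_congr rfl fun i hi => ?_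
      rw [List.eraseIdx_append_of_lt_length (mem_range.mp hi)]
    · rw [List.eraseIdx_append_of_length_le le_rfl]
      simp
  · refine Finset.sum_congr rfl fun j hj => ?_
    rw [List.eraseIdx_append_of_length_le (by omega)]
    have : u.length + 1 + j - u.length = j + 1 := by omega
    rw [this, List.eraseIdx_cons_succ]

theorem G_last {u' v : List (Fin 4)} {l : Fin 4} :
    G (u' ++ [l]) v l = 2 * B (u' ++ [l] ++ v) := by
  rw [G]
  have h1 : (∑ j ∈ range v.length, B (u' ++ [l] ++ l :: v.eraseIdx j)) = 0 := by
    refine Finset.sum_eq_zero fun j _ => B_of_not ?_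
    intro h
    rw [List.append_assoc, List.singleton_append, List.isChain_append_cons_cons] at h
    exact h.2.1 rfl
  rw [h1, add_zero]
  have h2 : (u' ++ [l]).length = u'.length + 1 := by simp
  rw [h2, Finset.sum_range_succ]
  have h3 : (∑ i ∈ range u'.length, B ((u' ++ [l]).eraseIdx i ++ l :: v)) = 0 := by
    refine Finset.sum_eq_zero fun j hj => B_of_not ?_
    intro h
    rw [List.eraseIdx_append_of_lt_length (mem_range.mp hj), List.append_assoc,
      List.singleton_append, List.isChain_append_cons_cons] at h
    exact h.2.1 rfl
  rw [h3, zero_add, List.eraseIdx_append_of_length_le le_rfl]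
  simp only [tsub_self, List.eraseIdx_cons_zero, List.append_nil]
  have h4 : u' ++ l :: v = u' ++ [l] ++ v := by simp
  rw [h4]
  ring

theorem G_head {u v' : List (Fin 4)} {h : Fin 4} :
    G u (h :: v') h = 2 * B (u ++ h :: v') := by
  rw [G]
  have h1 : (∑ i ∈ range u.length, B (u.eraseIdx i ++ h :: h :: v')) = 0 := by
    refine Finset.sum_eq_zero fun j _ => B_of_not ?_
    intro hc
    rw [List.isChain_append_cons_cons] at hc
    exact hc.2.1 rfl
  rw [h1, zero_add, List.length_cons, Finset.sum_range_succ']
  have h3 : (∑ j ∈ range v'.length, B (u ++ h :: (h :: v').eraseIdx (j + 1))) = 0 := by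
    refine Finset.sum_eq_zero fun j _ => B_of_not ?_
    intro hc
    rw [List.eraseIdx_cons_succ, List.isChain_append_cons_cons] at hc
    exact hc.2.1 rfl
  rw [h3, zero_add, List.eraseIdx_cons_zero]
  ring

theorem sum_split (F H : Fin 4 → ℕ) (p : Fin 4 → Prop) [DecidablePred p]
    (h1 : ∀ a, p a → F a = H a) (h2 : ∀ a, ¬ p a → F a = 0) :
    (∑ a, F a) + ∑ a, (if p a then 0 else H a) = ∑ a, H a := by
  rw [← Finset.sum_add_distrib]
  refine Finset.sum_congr rfl fun a _ => ?_
  by_cases ha : p a
  · rw [if_pos ha, h1 a ha, add_zero]
  · rw [if_neg ha, h2 a ha, zero_add]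

/-- the recursion for the sum over the middle letter -/
theorem sum_mid_rec {u v : List (Fin 4)} (hu : u.IsChain (· ≠ ·)) (hv : v.IsChain (· ≠ ·)) :
    (∑ a, B (u ++ a :: v)) + (if u = [] then 0 else 2 * B (u ++ v)) +
        (if v = [] then 0 else 2 * B (u ++ v)) =
      (∑ i ∈ range u.length, ∑ a, B (u.eraseIdx i ++ a :: v)) + 4 * B (u ++ v) +
        ∑ j ∈ range v.length, ∑ a, B (u ++ a :: v.eraseIdx j) := by
  have hG : ∑ a, G u v a = (∑ i ∈ range u.length, ∑ a, B (u.eraseIdx i ++ a :: v)) +
      4 * B (u ++ v) + ∑ j ∈ range v.length, ∑ a, B (u ++ a :: v.eraseIdx j) := by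
    simp only [G]
    rw [Finset.sum_add_distrib, Finset.sum_add_distrib, Finset.sum_comm]
    congr 1
    · congr 1
      simp
    · rw [Finset.sum_comm]
  rw [← hG]
  have hF1 : ∀ a, (u ++ a :: v).IsChain (· ≠ ·) → B (u ++ a :: v) = G u v a :=
    fun a h => B_mid_of_chain h
  have hF2 : ∀ a, ¬ (u ++ a :: v).IsChain (· ≠ ·) → B (u ++ a :: v) = 0 := fun a h => B_of_not h
  have key := sum_split (fun a => B (u ++ a :: v)) (G u v)
    (fun a => (u ++ a :: v).IsChain (· ≠ ·)) hF1 hF2
  rw [← key, add_assoc]
  congr 1
  -- the improper letters
  rcases List.eq_nil_or_concat u with rfl | ⟨u', l, rfl⟩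
  · rcases v with _ | ⟨h, v'⟩
    · simp
    · have : ∀ a : Fin 4, (if ([] ++ a :: h :: v').IsChain (· ≠ ·) then 0 else G [] (h :: v') a) =
          if a = h then G [] (h :: v') h else 0 := by
        intro a
        by_cases ha : a = h
        · subst ha
          rw [if_neg, if_pos rfl]
          intro hc
          rw [List.nil_append, List.isChain_cons_cons] at hc
          exact hc.1 rfl
        · rw [if_pos, if_neg ha]
          rw [List.nil_append, List.isChain_cons_cons]
          exact ⟨ha, hv⟩
      simp only [this]
      rw [Finset.sum_ite_eq' Finset.univ h, if_pos (Finset.mem_univ _), G_head]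
      simp
  · have hul : (u' ++ [l]).IsChain (· ≠ ·) := by simpa using hu
    simp only [List.concat_eq_append]
    rcases v with _ | ⟨h, v'⟩
    · have : ∀ a : Fin 4, (if (u' ++ [l] ++ a :: []).IsChain (· ≠ ·) then 0
          else G (u' ++ [l]) [] a) = if a = l then G (u' ++ [l]) [] l else 0 := by
        intro a
        by_cases ha : a = l
        · subst ha
          rw [if_neg, if_pos rfl]
          intro hc
          rw [List.append_assoc, List.singleton_append, List.isChain_append_cons_cons] at hc
          exact hc.2.1 rfl
        · rw [if_pos, if_neg ha]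
          rw [List.append_assoc, List.singleton_append, List.isChain_append_cons_cons]
          exact ⟨hul, Ne.symm ha, List.isChain_singleton _⟩
      simp only [this]
      rw [Finset.sum_ite_eq' Finset.univ l, if_pos (Finset.mem_univ _), G_last]
      simp
    · by_cases hlh : l = h
      · subst hlh
        have h0 : B (u' ++ [l] ++ l :: v') = 0 := by
          refine B_of_not ?_
          intro hc
          rw [List.append_assoc, List.singleton_append, List.isChain_append_cons_cons] at hc
          exact hc.2.1 rfl
        have : ∀ a : Fin 4, (if (u' ++ [l] ++ a :: l :: v').IsChain (· ≠ ·) then 0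
            else G (u' ++ [l]) (l :: v') a) = 0 := by
          intro a
          by_cases ha : a = l
          · subst ha
            rw [G_last, h0]
            simp
          · rw [if_pos]
            rw [List.append_assoc, List.singleton_append, List.isChain_append_cons_cons,
              List.isChain_cons_cons]
            exact ⟨hul, Ne.symm ha, ha, hv⟩
        simp only [this, h0]
        simp
      · have : ∀ a : Fin 4, (if (u' ++ [l] ++ a :: h :: v').IsChain (· ≠ ·) then 0
            else G (u' ++ [l]) (h :: v') a) =
            (if a = l then G (u' ++ [l]) (h :: v') l else 0) +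
              if a = h then G (u' ++ [l]) (h :: v') h else 0 := by
          intro a
          by_cases ha : a = l
          · subst ha
            rw [if_neg, if_pos rfl, if_neg hlh, add_zero]
            intro hc
            rw [List.append_assoc, List.singleton_append, List.isChain_append_cons_cons] at hc
            exact hc.2.1 rfl
          · by_cases ha' : a = h
            · subst ha'
              rw [if_neg, if_neg ha, if_pos rfl, zero_add]
              intro hc
              rw [List.append_assoc, List.singleton_append, List.isChain_append_cons_cons,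
                List.isChain_cons_cons] at hc
              exact hc.2.2.1 rfl
            · rw [if_pos, if_neg ha, if_neg ha']
              rw [List.append_assoc, List.singleton_append, List.isChain_append_cons_cons,
                List.isChain_cons_cons]
              exact ⟨hul, Ne.symm ha, ha', hv⟩
        simp only [this]
        rw [Finset.sum_add_distrib, Finset.sum_ite_eq' Finset.univ l,
          Finset.sum_ite_eq' Finset.univ h, if_pos (Finset.mem_univ _),
          if_pos (Finset.mem_univ _), G_last, G_head]
        simp

/-- the basic identity behind 1-dependence -/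
theorem sum_mid (u v : List (Fin 4)) :
    ∑ a, B (u ++ a :: v) =
      2 * (u.length + v.length + 2).choose (u.length + 1) * (B u * B v) := by
  by_cases hu : u.IsChain (· ≠ ·)
  swap
  · rw [B_of_not hu, zero_mul, mul_zero]
    refine Finset.sum_eq_zero fun a _ => B_of_not fun h => hu h.left_of_append
  by_cases hv : v.IsChain (· ≠ ·)
  swap
  · rw [B_of_not hv, mul_zero, mul_zero]
    refine Finset.sum_eq_zero fun a _ => B_of_not fun h => hv ?_
    exact h.right_of_append.tail
  have hrec := sum_mid_rec hu hv
  have h1 : ∑ i ∈ range u.length, ∑ a, B (u.eraseIdx i ++ a :: v) =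
      if u = [] then 0 else 2 * (u.length + v.length + 1).choose u.length * (B u * B v) := by
    split_ifs with h
    · subst h
      simp
    · rw [B_of_chain h hu, Finset.sum_mul, Finset.mul_sum]
      refine Finset.sum_congr rfl fun i hi => ?_
      have hlt := mem_range.mp hi
      have hlen := List.length_eraseIdx_of_lt hlt
      have hpos : 0 < u.length := by omega
      rw [sum_mid (u.eraseIdx i) v, hlen]
      have e1 : u.length - 1 + v.length + 2 = u.length + v.length + 1 := by omega
      have e2 : u.length - 1 + 1 = u.length := by omega
      rw [e1, e2]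
  have h2 : ∑ j ∈ range v.length, ∑ a, B (u ++ a :: v.eraseIdx j) =
      if v = [] then 0 else 2 * (u.length + v.length + 1).choose (u.length + 1) * (B u * B v) := by
    split_ifs with h
    · subst h
      simp
    · rw [B_of_chain h hv, Finset.mul_sum, Finset.mul_sum]
      refine Finset.sum_congr rfl fun j hj => ?_
      have hlt := mem_range.mp hj
      have hlen := List.length_eraseIdx_of_lt hlt
      have hpos : 0 < v.length := by omega
      rw [sum_mid u (v.eraseIdx j), hlen]
      have e1 : u.length + (v.length - 1) + 2 = u.length + v.length + 1 := by omega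
      rw [e1]
  rw [h1, h2] at hrec
  have hch : (u.length + v.length + 2).choose (u.length + 1) =
      (u.length + v.length + 1).choose u.length +
        (u.length + v.length + 1).choose (u.length + 1) := Nat.choose_succ_succ _ _
  by_cases hu0 : u = []
  · by_cases hv0 : v = []
    · subst hu0 hv0
      simp only [if_true] at hrec
      simp only [List.length_nil, B_nil]
      have : B ([] ++ []) = 1 := by simp [B_nil]
      rw [this] at hrec
      norm_num at hrec ⊢
      exact hrec
    · subst hu0
      rw [if_pos rfl, if_neg hv0, if_pos rfl, if_neg hv0] at hrec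
      rw [hch]
      simp only [List.nil_append, List.length_nil, B_nil, Nat.choose_zero_right] at hrec ⊢
      have : ∀ a b c : ℕ, a + 0 + 2 * b = 0 + 4 * b + c → a = 2 * b + c := by
        intro a b c h; omega
      rw [this _ _ _ hrec]
      ring
  · by_cases hv0 : v = []
    · subst hv0
      rw [if_neg hu0, if_pos rfl, if_neg hu0, if_pos rfl] at hrec
      rw [hch]
      simp only [List.append_nil, List.length_nil, B_nil, add_zero, Nat.choose_self] at hrec ⊢
      have : ∀ a b c : ℕ, a + 2 * b = c + 4 * b → a = 2 * b + c := by
        intro a b c h; omega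
      rw [this _ _ _ hrec]
      ring
    · rw [if_neg hu0, if_neg hv0, if_neg hu0, if_neg hv0] at hrec
      rw [hch]
      have : ∀ a b c d : ℕ, a + 2 * b + 2 * b = c + 4 * b + d → a = c + d := by
        intro a b c d h; omega
      rw [this _ _ _ _ hrec]
      ring
termination_by u.length + v.length
decreasing_by
  · omega
  · omega

theorem Z_zero : Z 0 = 1 := by
  rw [Z]
  simp [B_nil]

theorem Z_succ (n : ℕ) : Z (n + 1) = 2 * (n + 2) * Z n := by
  rw [Z, Z, Finset.mul_sum]
  rw [← (Fin.consEquiv fun _ : Fin (n + 1) => Fin 4).sum_comp, Fintype.sum_prod_type, Finset.sum_comm]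
  refine Finset.sum_congr rfl fun y _ => ?_
  have := sum_mid [] (List.ofFn y)
  simp only [List.nil_append, List.length_nil, List.length_ofFn, zero_add, Nat.choose_one_right,
    B_nil, one_mul] at this
  rw [← this]
  refine Finset.sum_congr rfl fun a _ => ?_
  congr 1
  simp [Fin.consEquiv, List.ofFn_succ]

theorem Z_eq (n : ℕ) : Z n = 2 ^ n * (n + 1).factorial := by
  induction n with
  | zero => simp [Z_zero]
  | succ n ih =>
    rw [Z_succ, ih, Nat.factorial_succ (n + 1)]
    ring

theorem Z_pos (n : ℕ) : 0 < Z n := by
  rw [Z_eq]
  positivity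

/-- words in two letters: the weight is `2 ^ (n - 1)` -/
theorem B_two {x : List (Fin 4)} (hx : x.IsChain (· ≠ ·)) (hx0 : x ≠ [])
    (h : ∀ a ∈ x, a = 0 ∨ a = 1) : B x = 2 ^ (x.length - 1) := by
  obtain ⟨n, hn⟩ : ∃ n, n = x.length := ⟨_, rfl⟩
  induction n using Nat.strong_induction_on generalizing x with
  | _ n ih =>
    rw [B_of_chain hx0 hx]
    have hpos : 0 < x.length := List.length_pos_iff.mpr hx0
    rcases Nat.lt_or_ge x.length 2 with h1 | h2
    · have h1' : x.length = 1 := by omega
      rw [h1', Finset.sum_range_one]
      obtain ⟨a, rfl⟩ := List.length_eq_one_iff.mp h1'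
      simp [B_nil]
    · obtain ⟨m, hm⟩ : ∃ m, x.length = m + 2 := ⟨x.length - 2, by omega⟩
      rw [hm, Finset.sum_range_succ, Finset.sum_range_succ']
      have hmid : ∑ i ∈ range m, B (x.eraseIdx (i + 1)) = 0 := by
        refine Finset.sum_eq_zero fun i hi => B_of_not ?_
        have hi' := mem_range.mp hi
        intro hc
        rw [List.eraseIdx_eq_take_drop_succ] at hc
        rw [List.isChain_append] at hc
        have h3 : (x.take (i + 1)).getLast? = some (x[i]'(by omega)) := by
          rw [List.getLast?_take]
          simp
        have h4 : (x.drop (i + 1 + 1)).head? = some (x[i + 2]'(by omega)) := by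
          rw [List.head?_drop, List.getElem?_eq_getElem (by omega)]
        have h5 := hc.2.2 _ h3 _ h4
        have h6 := List.isChain_iff_getElem.mp hx i (by omega)
        have h7 := List.isChain_iff_getElem.mp hx (i + 1) (by omega)
        have k1 := h _ (List.getElem_mem (l := x) (n := i) (by omega))
        have k2 := h _ (List.getElem_mem (l := x) (n := i + 1) (by omega))
        have k3 := h _ (List.getElem_mem (l := x) (n := i + 2) (by omega))
        rcases k1 with k1 | k1 <;> rcases k2 with k2 | k2 <;> rcases k3 with k3 | k3 <;>
          simp_all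
      rw [hmid, zero_add]
      have hfirst : B (x.eraseIdx 0) = 2 ^ m := by
        have e : x.eraseIdx 0 = x.tail := by simp
        have hl : x.tail.length = m + 1 := by simp [hm]
        rw [e]
        have := ih (m + 1) (by omega) (x := x.tail) hx.tail
          (by intro h0; rw [h0] at hl; simp at hl)
          (fun a ha => h a (List.mem_of_mem_tail ha)) hl.symm
        rw [this, hl]
        simp
      have hlast : B (x.eraseIdx (m + 1)) = 2 ^ m := by
        have e : x.eraseIdx (m + 1) = x.take (m + 1) := by
          rw [List.eraseIdx_eq_take_drop_succ, List.drop_of_length_le (by omega),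
            List.append_nil]
        have hl : (x.take (m + 1)).length = m + 1 := by
          rw [List.length_take]
          omega
        rw [e]
        have := ih (m + 1) (by omega) (x := x.take (m + 1)) (hx.take _)
          (by intro h0; rw [h0] at hl; simp at hl)
          (fun a ha => h a (List.mem_of_mem_take ha)) hl.symm
        rw [this, hl]
        simp
      rw [hfirst, hlast]
      have : m + 2 - 1 = m + 1 := by omega
      rw [this]
      ring

end Pool.Agent.Y979.FC
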