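import Mathlib

/-!
# The 1-dependent 4-coloring of the integers and its merged version: definitions
-/

set_option autoImplicit false

open MeasureTheory
open scoped ENNReal

namespace Pool.Agent.Y979.FC

/-- The weight `B` of a word: `B` of the empty word is `1`, and `B x` is `0` unless the word `x` is
proper (consecutive letters differ), when it is the sum of `B` over the words obtained from `x` by
removing one letter. -/
def B (x : List (Fin 4)) : ℕ :=
  if x = [] then 1
  else if x.IsChain (· ≠ ·) then ∑ i : Fin x.length, B (x.eraseIdx i) else 0
termination_by x.length
decreasing_by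
  have := i.2
  rw [List.length_eraseIdx_of_lt this]
  omega

/-- `Z n` is the sum of the weights of all words of length `n`. -/
def Z (n : ℕ) : ℕ := ∑ y : Fin n → Fin 4, B (List.ofFn y)

/-- `X` is the 1-dependent 4-coloring of the integers: for every word `x` and every block of
`n = x.length` consecutive sites, the word `x` is seen there with probability `B x / Z n`. -/
structure IsFourColoring {Ω : Type*} [MeasurableSpace Ω] (P : Measure Ω) (X : ℤ → Ω → Fin 4) :
    Prop where
  measurable : ∀ i, Measurable (X i)
  law : ∀ (k : ℤ) (x : List (Fin 4)),
    P {ω | ∀ (j : ℕ) (h : j < x.length), X (k + j) ω = x[j]} = (B x : ℝ≥0∞) / (Z x.length : ℝ≥0∞)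

/-- The merging map: the colors `0, 1` (called 1, 2 in the problem) are kept and the colors `2, 3`
(called 3, 4) become the single symbol `2` (called star). -/
def merge : Fin 4 → Fin 3 := ![0, 1, 2, 2]

/-- A probability law `ν` on sequences with values in `S` is an `r`-block factor of an i.i.d.
process: there are a probability measure `μ` on some space `E` and a measurable function `f` such
that `ν` is the law of `(f (U i, ..., U (i + r - 1)))`, where the `U i` are independent with law
`μ`. -/
def IsBlockFactor {S : Type*} [MeasurableSpace S] (r : ℕ) (ν : Measure (ℤ → S)) : Prop :=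
  ∃ (E : Type) (_ : MeasurableSpace E) (μ : Measure E) (_ : IsProbabilityMeasure μ)
    (f : (Fin r → E) → S), Measurable f ∧
      ν = Measure.map (fun (u : ℤ → E) (i : ℤ) => f (fun j : Fin r => u (i + j)))
        (Measure.infinitePi fun _ : ℤ => μ)

end Pool.Agent.Y979.FC
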