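import Mathlib

/-!
# Tools for i.i.d. sequences indexed by the integers
-/

set_option autoImplicit false

namespace Pool.Agent.Y979.FC

open MeasureTheory Measure
open scoped ENNReal

section

variable {E : Type*} [MeasurableSpace E]

/-- the coordinates in `I` are taken from the first sequence, the others from the second one -/
def splice (p : ℤ → Prop) [DecidablePred p] (z : (ℤ → E) × (ℤ → E)) : ℤ → E :=
  fun j => if p j then z.1 j else z.2 j

theorem measurable_splice (p : ℤ → Prop) [DecidablePred p] :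
    Measurable (splice p : (ℤ → E) × (ℤ → E) → ℤ → E) := by
  refine measurable_pi_lambda _ fun j => ?_
  by_cases h : p j
  · simp only [splice, if_pos h]
    fun_prop
  · simp only [splice, if_neg h]
    fun_prop

variable (μ : Measure E) [IsProbabilityMeasure μ]

theorem map_splice (p : ℤ → Prop) [DecidablePred p] :
    Measure.map (splice p) ((infinitePi fun _ : ℤ => μ).prod (infinitePi fun _ : ℤ => μ)) =
      infinitePi fun _ : ℤ => μ := by
  refine eq_infinitePi _ fun s t ht => ?_
  rw [map_apply (measurable_splice p) (.pi s.countable_toSet fun _ _ => ht _)]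
  have : splice p ⁻¹' ((s : Set ℤ).pi t) =
      (((s.filter p : Finset ℤ) : Set ℤ).pi t) ×ˢ
        (((s.filter (fun j => ¬ p j) : Finset ℤ) : Set ℤ).pi t) := by
    ext z
    simp only [Set.mem_preimage, Set.mem_pi, Set.mem_prod, Finset.coe_filter, Set.mem_setOf_eq,
      splice, Finset.mem_coe]
    constructor
    · intro h
      refine ⟨fun i hi => ?_, fun i hi => ?_⟩
      · have := h i hi.1
        rwa [if_pos hi.2] at this
      · have := h i hi.1
        rwa [if_neg hi.2] at this
    · rintro ⟨h1, h2⟩ i hi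
      by_cases hp : p i
      · rw [if_pos hp]
        exact h1 i ⟨hi, hp⟩
      · rw [if_neg hp]
        exact h2 i ⟨hi, hp⟩
  rw [this, prod_prod, infinitePi_pi _ (fun i _ => ht i), infinitePi_pi _ (fun i _ => ht i)]
  exact Finset.prod_filter_mul_prod_filter_not s p _

theorem lintegral_splice (p : ℤ → Prop) [DecidablePred p] {H : (ℤ → E) → ℝ≥0∞}
    (hH : Measurable H) :
    ∫⁻ T, H T ∂(infinitePi fun _ : ℤ => μ) =
      ∫⁻ T, ∫⁻ T', H (splice p (T, T')) ∂(infinitePi fun _ : ℤ => μ)
        ∂(infinitePi fun _ : ℤ => μ) := by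
  conv_lhs => rw [← map_splice μ p]
  rw [lintegral_map hH (measurable_splice p)]
  exact lintegral_prod _ (hH.comp (measurable_splice p)).aemeasurable

theorem lintegral_resample (j : ℤ) {H : (ℤ → E) → ℝ≥0∞} (hH : Measurable H) :
    ∫⁻ T, H T ∂(infinitePi fun _ : ℤ => μ) =
      ∫⁻ T, ∫⁻ s, H (Function.update T j s) ∂μ ∂(infinitePi fun _ : ℤ => μ) := by
  rw [lintegral_splice μ (fun i => i ≠ j) hH]
  refine lintegral_congr fun T => ?_
  have h1 : ∀ T' : ℤ → E, splice (fun i => i ≠ j) (T, T') = Function.update T j (T' j) := by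
    intro T'
    funext i
    by_cases h : i = j
    · subst h
      simp [splice]
    · simp [splice, h]
  simp only [h1]
  have h2 : Measurable fun s : E => H (Function.update T j s) := hH.comp (measurable_update T)
  exact (measurePreserving_eval_infinitePi (fun _ : ℤ => μ) j).lintegral_comp h2

variable {F : Type*} [MeasurableSpace F] (ν : Measure F) [IsProbabilityMeasure ν]

/-- the sequence of pairs -/
def zip (z : (ℤ → E) × (ℤ → F)) : ℤ → E × F := fun j => (z.1 j, z.2 j)

theorem measurable_zip : Measurable (zip : (ℤ → E) × (ℤ → F) → ℤ → E × F) := by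
  refine measurable_pi_lambda _ fun j => ?_
  unfold zip
  fun_prop

theorem map_zip : Measure.map zip ((infinitePi fun _ : ℤ => μ).prod (infinitePi fun _ : ℤ => ν)) =
    infinitePi fun _ : ℤ => μ.prod ν := by
  refine eq_infinitePi _ fun s t ht => ?_
  have hm : MeasurableSet ((zip : (ℤ → E) × (ℤ → F) → ℤ → E × F) ⁻¹' ((s : Set ℤ).pi t)) :=
    measurable_zip (.pi s.countable_toSet fun _ _ => ht _)
  rw [map_apply measurable_zip (.pi s.countable_toSet fun _ _ => ht _), prod_apply hm]
  have h1 : ∀ x : ℤ → E, (infinitePi fun _ : ℤ => ν)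
      (Prod.mk x ⁻¹' (zip ⁻¹' ((s : Set ℤ).pi t))) = ∏ i ∈ s, ν (Prod.mk (x i) ⁻¹' t i) := by
    intro x
    rw [← infinitePi_pi (fun _ : ℤ => ν) (s := s) (t := fun i => Prod.mk (x i) ⁻¹' t i)
      (fun i _ => measurable_prodMk_left (ht i))]
    rfl
  simp only [h1]
  have h2 : ∀ i, Measurable fun a : E => ν (Prod.mk a ⁻¹' t i) := fun i =>
    measurable_measure_prodMk_left (ht i)
  have hind : ProbabilityTheory.iIndepFun (fun (i : ℤ) (x : ℤ → E) => ν (Prod.mk (x i) ⁻¹' t i))
      (infinitePi fun _ : ℤ => μ) := by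
    have := ProbabilityTheory.iIndepFun_infinitePi (P := fun _ : ℤ => μ)
      (X := fun (i : ℤ) (a : E) => ν (Prod.mk a ⁻¹' t i)) h2
    exact this
  rw [ProbabilityTheory.lintegral_prod_eq_prod_lintegral_of_indepFun s
    (fun i (x : ℤ → E) => ν (Prod.mk (x i) ⁻¹' t i)) hind
    (fun i => (h2 i).comp (measurable_pi_apply i))]
  refine Finset.prod_congr rfl fun i _ => ?_
  rw [prod_apply (ht i)]
  exact (measurePreserving_eval_infinitePi (fun _ : ℤ => μ) i).lintegral_comp (h2 i)

end

end Pool.Agent.Y979.FC
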