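import Pool.Agent.Y979.FC.Prod

/-!
# Independent uniform variables: the probability of having no interior local minimum
-/

set_option autoImplicit false

namespace Pool.Agent.Y979.FC

open MeasureTheory Measure
open scoped ENNReal Nat

/-- the uniform law on the unit interval -/
noncomputable def unif : Measure ℝ := volume.restrict (Set.Icc 0 1)

instance : IsProbabilityMeasure unif := by
  constructor
  rw [unif, Measure.restrict_apply_univ, Real.volume_Icc]
  simp

/-- the law of a sequence of independent uniform variables -/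
noncomputable def PT : Measure (ℤ → ℝ) := infinitePi fun _ : ℤ => unif

instance : IsProbabilityMeasure PT := by
  unfold PT
  infer_instance

/-- increasing on `[k, k + m]` -/
def Inc (k : ℤ) (m : ℕ) (T : ℤ → ℝ) : Prop := ∀ j : ℕ, j < m → T (k + j) < T (k + j + 1)

/-- a local minimum at `i` -/
def LMin (T : ℤ → ℝ) (i : ℤ) : Prop := T i < T (i - 1) ∧ T i < T (i + 1)

/-- no local minimum strictly between `k` and `k + m` -/
def NoMin (k : ℤ) (m : ℕ) (T : ℤ → ℝ) : Prop := ∀ j : ℕ, 1 ≤ j → j < m → ¬ LMin T (k + j)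

theorem inc_succ (k : ℤ) (m : ℕ) (T : ℤ → ℝ) :
    Inc k (m + 1) T ↔ Inc k m T ∧ T (k + m) < T (k + m + 1) := by
  constructor
  · intro h
    exact ⟨fun j hj => h j (by omega), h m (by omega)⟩
  · rintro ⟨h1, h2⟩ j hj
    rcases Nat.lt_succ_iff_lt_or_eq.mp hj with h | h
    · exact h1 j h
    · rw [h]
      exact h2

theorem noMin_succ {k : ℤ} {m : ℕ} {T : ℤ → ℝ} (hT : ∀ i, T i ≠ T (i + 1)) :
    NoMin k (m + 1) T ↔
      (NoMin k m T ∧ T (k + m + 1) < T (k + m)) ∨ (Inc k m T ∧ T (k + m) < T (k + m + 1)) := by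
  constructor
  · intro h
    rcases lt_or_gt_of_ne (hT (k + m)) with h1 | h1
    · right
      refine ⟨?_, h1⟩
      -- downward induction
      have key : ∀ i : ℕ, i ≤ m → T (k + (m - i : ℕ)) < T (k + (m - i : ℕ) + 1) := by
        intro i
        induction i with
        | zero => intro _; simpa using h1
        | succ i ih =>
          intro hi
          have h2 := ih (by omega)
          have h3 := h (m - i) (by omega) (by omega)
          have e : k + ((m - i : ℕ) : ℤ) - 1 = k + ((m - (i + 1) : ℕ) : ℤ) := by omega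
          rw [LMin, e] at h3
          have e2 : k + ((m - (i + 1) : ℕ) : ℤ) + 1 = k + ((m - i : ℕ) : ℤ) := by omega
          have h4 := hT (k + ((m - (i + 1) : ℕ) : ℤ))
          rw [e2] at h4 ⊢
          by_contra h5
          exact h3 ⟨lt_of_le_of_ne (not_lt.mp h5) h4.symm, h2⟩
      intro j hj
      have := key (m - j) (by omega)
      have e : m - (m - j) = j := by omega
      rwa [e] at this
    · left
      exact ⟨fun j h2 h3 => h j h2 (by omega), h1⟩
  · rintro (⟨h1, h2⟩ | ⟨h1, h2⟩) j hj1 hj2
    · rcases Nat.lt_succ_iff_lt_or_eq.mp hj2 with h | h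
      · exact h1 j hj1 h
      · rw [h]
        intro h3
        exact absurd h3.2 (not_lt.mpr h2.le)
    · intro h3
      have h4 := h1 (j - 1) (by omega)
      have e : k + ((j - 1 : ℕ) : ℤ) + 1 = k + j := by omega
      have e2 : k + ((j - 1 : ℕ) : ℤ) = k + j - 1 := by omega
      rw [e, e2] at h4
      exact absurd h3.1 (not_lt.mpr h4.le)

theorem measurableSet_lt_coord (i j : ℤ) : MeasurableSet {T : ℤ → ℝ | T i < T j} :=
  measurableSet_lt (measurable_pi_apply i) (measurable_pi_apply j)

theorem measurableSet_inc (k : ℤ) (m : ℕ) : MeasurableSet {T : ℤ → ℝ | Inc k m T} := by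
  have : {T : ℤ → ℝ | Inc k m T} =
      ⋂ j : ℕ, ⋂ _ : j < m, {T : ℤ → ℝ | T (k + j) < T (k + j + 1)} := by
    ext T
    simp [Inc]
  rw [this]
  exact MeasurableSet.iInter fun j => MeasurableSet.iInter fun _ => measurableSet_lt_coord _ _

theorem measurableSet_lmin (i : ℤ) : MeasurableSet {T : ℤ → ℝ | LMin T i} :=
  (measurableSet_lt_coord _ _).inter (measurableSet_lt_coord _ _)

theorem measurableSet_noMin (k : ℤ) (m : ℕ) : MeasurableSet {T : ℤ → ℝ | NoMin k m T} := by
  have : {T : ℤ → ℝ | NoMin k m T} =
      ⋂ j : ℕ, ⋂ _ : 1 ≤ j, ⋂ _ : j < m, {T : ℤ → ℝ | LMin T (k + j)}ᶜ := by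
    ext T
    simp [NoMin]
  rw [this]
  exact MeasurableSet.iInter fun j => MeasurableSet.iInter fun _ => MeasurableSet.iInter
    fun _ => (measurableSet_lmin _).compl

theorem inc_congr {k : ℤ} {m : ℕ} {T T' : ℤ → ℝ} (h : ∀ i, i ≤ k + m → T i = T' i) :
    Inc k m T ↔ Inc k m T' := by
  refine forall_congr' fun j => imp_congr_right fun hj => ?_
  rw [h _ (by omega), h _ (by omega)]

theorem noMin_congr {k : ℤ} {m : ℕ} {T T' : ℤ → ℝ} (h : ∀ i, i ≤ k + m → T i = T' i) :
    NoMin k m T ↔ NoMin k m T' := by
  refine forall_congr' fun j => imp_congr_right fun _ => imp_congr_right fun hj => ?_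
  rw [LMin, LMin, h _ (by omega), h _ (by omega), h _ (by omega)]

open Classical in
/-- the value `h y` when `x < y` -/
noncomputable def up (h : ℝ → ℝ≥0∞) (x y : ℝ) : ℝ≥0∞ := if x < y then h y else 0

open Classical in
/-- the value `h y` when `y < x` -/
noncomputable def dn (h : ℝ → ℝ≥0∞) (x y : ℝ) : ℝ≥0∞ := if y < x then h y else 0

theorem measurable_up {h : ℝ → ℝ≥0∞} (hh : Measurable h) :
    Measurable fun z : ℝ × ℝ => up h z.1 z.2 := by
  unfold up
  refine Measurable.ite (measurableSet_lt measurable_fst measurable_snd) ?_ measurable_const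
  exact hh.comp measurable_snd

theorem measurable_dn {h : ℝ → ℝ≥0∞} (hh : Measurable h) :
    Measurable fun z : ℝ × ℝ => dn h z.1 z.2 := by
  unfold dn
  refine Measurable.ite (measurableSet_lt measurable_snd measurable_fst) ?_ measurable_const
  exact hh.comp measurable_snd

theorem measurable_pair (i j : ℤ) : Measurable fun T : ℤ → ℝ => (T i, T j) :=
  (measurable_pi_apply i).prodMk (measurable_pi_apply j)

/-- adding one more uniform variable -/
theorem step {k : ℤ} {m : ℕ} {A : Set (ℤ → ℝ)} (hA : MeasurableSet A)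
    (hAc : ∀ T T' : ℤ → ℝ, (∀ i, i ≤ k + m → T i = T' i) → (T ∈ A ↔ T' ∈ A))
    {f : ℝ → ℝ → ℝ≥0∞} (hf : Measurable fun z : ℝ × ℝ => f z.1 z.2) :
    ∫⁻ T, A.indicator (fun T => f (T (k + m)) (T (k + m + 1))) T ∂PT =
      ∫⁻ T, A.indicator (fun T => ∫⁻ s, f (T (k + m)) s ∂unif) T ∂PT := by
  have hm : Measurable (A.indicator fun T : ℤ → ℝ => f (T (k + m)) (T (k + m + 1))) := by
    refine Measurable.indicator ?_ hA
    exact hf.comp (measurable_pair _ _)
  unfold PT
  rw [lintegral_resample unif (k + m + 1) hm]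
  refine lintegral_congr fun T => ?_
  have h1 : ∀ s : ℝ, (Function.update T (k + m + 1) s ∈ A ↔ T ∈ A) := by
    intro s
    refine hAc _ _ fun i hi => ?_
    rw [Function.update_of_ne]
    omega
  have h2 : ∀ s : ℝ, Function.update T (k + m + 1) s (k + m) = T (k + m) := by
    intro s
    rw [Function.update_of_ne]
    omega
  by_cases hT : T ∈ A
  · rw [Set.indicator_of_mem hT]
    refine lintegral_congr fun s => ?_
    rw [Set.indicator_of_mem ((h1 s).mpr hT), h2, Function.update_self]
  · rw [Set.indicator_of_notMem hT]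
    have : ∀ s, A.indicator (fun T : ℤ → ℝ => f (T (k + m)) (T (k + m + 1)))
        (Function.update T (k + m + 1) s) = 0 := by
      intro s
      rw [Set.indicator_of_notMem]
      rw [h1]
      exact hT
    simp only [this, lintegral_zero]

theorem lintegral_unif_gt {g : ℝ → ℝ} (hg : Continuous g) (hg0 : ∀ t ∈ Set.Icc (0 : ℝ) 1, 0 ≤ g t)
    {t : ℝ} (ht : t ∈ Set.Icc (0 : ℝ) 1) :
    ∫⁻ s, (if t < s then ENNReal.ofReal (g s) else 0) ∂unif =
      ENNReal.ofReal (∫ s in t..1, g s) := by
  rw [intervalIntegral.integral_of_le ht.2, ofReal_integral_eq_lintegral_ofReal]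
  · rw [unif, ← lintegral_indicator measurableSet_Icc, ← lintegral_indicator measurableSet_Ioc]
    refine lintegral_congr fun s => ?_
    by_cases h1 : s ∈ Set.Ioc t 1
    · have h2 : s ∈ Set.Icc (0 : ℝ) 1 := ⟨ht.1.trans h1.1.le, h1.2⟩
      rw [Set.indicator_of_mem h1, Set.indicator_of_mem h2, if_pos h1.1]
    · rw [Set.indicator_of_notMem h1]
      by_cases h2 : s ∈ Set.Icc (0 : ℝ) 1
      · rw [Set.indicator_of_mem h2, if_neg]
        intro h3
        exact h1 ⟨h3, h2.2⟩
      · rw [Set.indicator_of_notMem h2]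
  · exact (hg.integrableOn_Icc).mono_set Set.Ioc_subset_Icc_self
  · refine (ae_restrict_iff' measurableSet_Ioc).mpr (Filter.Eventually.of_forall fun s hs => ?_)
    exact hg0 s ⟨ht.1.trans hs.1.le, hs.2⟩

theorem lintegral_unif_lt {g : ℝ → ℝ} (hg : Continuous g) (hg0 : ∀ t ∈ Set.Icc (0 : ℝ) 1, 0 ≤ g t)
    {t : ℝ} (ht : t ∈ Set.Icc (0 : ℝ) 1) :
    ∫⁻ s, (if s < t then ENNReal.ofReal (g s) else 0) ∂unif =
      ENNReal.ofReal (∫ s in (0 : ℝ)..t, g s) := by
  rw [intervalIntegral.integral_of_le ht.1, integral_Ioc_eq_integral_Ioo,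
    ofReal_integral_eq_lintegral_ofReal]
  · have h0 : ∫⁻ s, (if s < t then ENNReal.ofReal (g s) else 0) ∂unif =
        ∫⁻ s in Set.Ico 0 t, ENNReal.ofReal (g s) := by
      rw [unif, ← lintegral_indicator measurableSet_Icc, ← lintegral_indicator measurableSet_Ico]
      refine lintegral_congr fun s => ?_
      by_cases h1 : s ∈ Set.Ico 0 t
      · have h2 : s ∈ Set.Icc (0 : ℝ) 1 := ⟨h1.1, h1.2.le.trans ht.2⟩
        rw [Set.indicator_of_mem h1, Set.indicator_of_mem h2, if_pos h1.2]
      · rw [Set.indicator_of_notMem h1]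
        by_cases h2 : s ∈ Set.Icc (0 : ℝ) 1
        · rw [Set.indicator_of_mem h2, if_neg]
          intro h3
          exact h1 ⟨h2.1, h3⟩
        · rw [Set.indicator_of_notMem h2]
    rw [h0]
    exact (setLIntegral_congr Ioo_ae_eq_Ico).symm
  · exact (hg.integrableOn_Icc).mono_set Set.Ioo_subset_Icc_self
  · refine (ae_restrict_iff' measurableSet_Ioo).mpr (Filter.Eventually.of_forall fun s hs => ?_)
    exact hg0 s ⟨hs.1.le, hs.2.le.trans ht.2⟩

/-- increasing sequences -/
theorem lintegral_inc (k : ℤ) (m : ℕ) {h : ℝ → ℝ≥0∞} (hh : Measurable h) :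
    ∫⁻ T, {T : ℤ → ℝ | Inc k m T}.indicator (fun T => h (T (k + m))) T ∂PT =
      ∫⁻ t, ENNReal.ofReal (t ^ m / (m ! : ℝ)) * h t ∂unif := by
  induction m generalizing h with
  | zero =>
    have : {T : ℤ → ℝ | Inc k 0 T} = Set.univ := by
      ext T
      simp [Inc]
    rw [this]
    simp only [Set.indicator_univ, pow_zero, Nat.factorial_zero, Nat.cast_one, div_one,
      ENNReal.ofReal_one, one_mul, Nat.cast_zero, add_zero]
    exact (measurePreserving_eval_infinitePi (fun _ : ℤ => unif) k).lintegral_comp hh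
  | succ m ih =>
    have h1 : ∀ T : ℤ → ℝ,
        {T : ℤ → ℝ | Inc k (m + 1) T}.indicator (fun T => h (T (k + (m + 1 : ℕ)))) T =
        {T : ℤ → ℝ | Inc k m T}.indicator (fun T => up h (T (k + m)) (T (k + m + 1))) T := by
      intro T
      have e : k + ((m + 1 : ℕ) : ℤ) = k + m + 1 := by push_cast; ring
      rw [e]
      by_cases h2 : Inc k m T
      · by_cases h3 : T (k + m) < T (k + m + 1)
        · rw [Set.indicator_of_mem (by exact (inc_succ k m T).mpr ⟨h2, h3⟩),
            Set.indicator_of_mem (by exact h2), up, if_pos h3]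
        · rw [Set.indicator_of_notMem, Set.indicator_of_mem (by exact h2)]
          · rw [up, if_neg h3]
          · intro h4
            exact h3 ((inc_succ k m T).mp h4).2
      · rw [Set.indicator_of_notMem, Set.indicator_of_notMem (by exact h2)]
        intro h4
        exact h2 ((inc_succ k m T).mp h4).1
    have hf := measurable_up hh
    simp only [h1]
    rw [step (measurableSet_inc k m) (fun T T' hTT => inc_congr hTT) hf]
    have hh2 : Measurable fun x : ℝ => ∫⁻ s, up h x s ∂unif := hf.lintegral_prod_right'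
    rw [ih hh2]
    have h3 : ∀ t : ℝ, ENNReal.ofReal (t ^ m / (m ! : ℝ)) *
        ∫⁻ s, up h t s ∂unif =
        ∫⁻ s, (if t < s then ENNReal.ofReal (t ^ m / (m ! : ℝ)) else 0) * h s ∂unif := by
      intro t
      rw [← lintegral_const_mul' _ _ ENNReal.ofReal_ne_top]
      refine lintegral_congr fun s => ?_
      unfold up
      split_ifs <;> simp
    simp only [h3]
    rw [lintegral_lintegral_swap]
    · have hae : ∀ᵐ t ∂unif, t ∈ Set.Icc (0 : ℝ) 1 := ae_restrict_mem measurableSet_Icc
      refine lintegral_congr_ae ?_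
      filter_upwards [hae] with s hs
      rw [lintegral_mul_const]
      · congr 1
        rw [lintegral_unif_lt (g := fun t => t ^ m / (m ! : ℝ)) (by fun_prop)
          (fun t ht => by have := ht.1; positivity) hs]
        congr 1
        rw [intervalIntegral.integral_div, integral_pow]
        rw [Nat.factorial_succ]
        push_cast
        field_simp
        simp
      · refine Measurable.ite (measurableSet_lt measurable_id measurable_const) ?_ measurable_const
        fun_prop
    · refine Measurable.aemeasurable ?_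
      refine Measurable.mul ?_ (hh.comp measurable_snd)
      refine Measurable.ite (measurableSet_lt measurable_fst measurable_snd) ?_ measurable_const
      fun_prop

theorem ae_ne (i : ℤ) : ∀ᵐ T ∂PT, T i ≠ T (i + 1) := by
  have h : ∫⁻ T, (if T i = T (i + 1) then (1 : ℝ≥0∞) else 0) ∂PT = 0 := by
    have hm : Measurable fun T : ℤ → ℝ => (if T i = T (i + 1) then (1 : ℝ≥0∞) else 0) :=
      Measurable.ite (measurableSet_eq_fun (measurable_pi_apply _) (measurable_pi_apply _))
        measurable_const measurable_const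
    unfold PT
    rw [lintegral_resample unif (i + 1) hm]
    have h1 : ∀ T : ℤ → ℝ, ∫⁻ s, (if Function.update T (i + 1) s i =
        Function.update T (i + 1) s (i + 1) then (1 : ℝ≥0∞) else 0) ∂unif = 0 := by
      intro T
      have h2 : ∀ s : ℝ, (if Function.update T (i + 1) s i =
          Function.update T (i + 1) s (i + 1) then (1 : ℝ≥0∞) else 0) =
          ({T i} : Set ℝ).indicator (fun _ => 1) s := by
        intro s
        rw [Function.update_self, Function.update_of_ne (by omega)]
        by_cases h3 : T i = s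
        · rw [if_pos h3, Set.indicator_of_mem]
          exact h3.symm
        · rw [if_neg h3, Set.indicator_of_notMem]
          exact fun h4 => h3 h4.symm
      simp only [h2]
      rw [lintegral_indicator (measurableSet_singleton _)]
      simp only [lintegral_const, one_mul]
      rw [Measure.restrict_apply_univ, unif]
      exact le_antisymm ((Measure.restrict_apply_le _ _).trans (by simp)) zero_le
    simp only [h1, lintegral_zero]
  have hm : Measurable fun T : ℤ → ℝ => (if T i = T (i + 1) then (1 : ℝ≥0∞) else 0) :=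
    Measurable.ite (measurableSet_eq_fun (measurable_pi_apply _) (measurable_pi_apply _))
      measurable_const measurable_const
  rw [lintegral_eq_zero_iff hm] at h
  filter_upwards [h] with T hT h2
  simp [h2] at hT

/-- no interior local minimum -/
theorem lintegral_noMin (k : ℤ) (m : ℕ) {h : ℝ → ℝ≥0∞} (hh : Measurable h) :
    ∫⁻ T, {T : ℤ → ℝ | NoMin k m T}.indicator (fun T => h (T (k + m))) T ∂PT =
      ∫⁻ t, ENNReal.ofReal ((t ^ m + (2 - t) ^ m) / (2 * (m ! : ℝ))) * h t ∂unif := by
  induction m generalizing h with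
  | zero =>
    have : {T : ℤ → ℝ | NoMin k 0 T} = Set.univ := by
      ext T
      simp [NoMin]
    rw [this]
    have e : ((1 : ℝ) + 1) / (2 * 1) = 1 := by norm_num
    simp only [Set.indicator_univ, pow_zero, Nat.factorial_zero, Nat.cast_one, e,
      ENNReal.ofReal_one, one_mul, Nat.cast_zero, add_zero]
    exact (measurePreserving_eval_infinitePi (fun _ : ℤ => unif) k).lintegral_comp hh
  | succ m ih =>
    have hae : ∀ᵐ T ∂PT, ∀ i : ℤ, T i ≠ T (i + 1) := ae_all_iff.mpr ae_ne
    have h1 : ∀ᵐ T ∂PT,
        {T : ℤ → ℝ | NoMin k (m + 1) T}.indicator (fun T => h (T (k + (m + 1 : ℕ)))) T =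
        {T : ℤ → ℝ | NoMin k m T}.indicator (fun T => dn h (T (k + m)) (T (k + m + 1))) T +
        {T : ℤ → ℝ | Inc k m T}.indicator (fun T => up h (T (k + m)) (T (k + m + 1))) T := by
      filter_upwards [hae] with T hT
      have e : k + ((m + 1 : ℕ) : ℤ) = k + m + 1 := by push_cast; ring
      rw [e]
      have hmem := noMin_succ (k := k) (m := m) hT
      have i1 : ∀ (p : (ℤ → ℝ) → Prop) (g : (ℤ → ℝ) → ℝ≥0∞), p T →
          {T : ℤ → ℝ | p T}.indicator g T = g T := fun p g hp =>
        Set.indicator_of_mem (s := {T : ℤ → ℝ | p T}) hp g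
      have i2 : ∀ (p : (ℤ → ℝ) → Prop) (g : (ℤ → ℝ) → ℝ≥0∞), ¬ p T →
          {T : ℤ → ℝ | p T}.indicator g T = 0 := fun p g hp =>
        Set.indicator_of_notMem (s := {T : ℤ → ℝ | p T}) hp g
      rcases lt_or_gt_of_ne (hT (k + m)) with h2 | h2
      · have h3 : ¬ T (k + m + 1) < T (k + m) := not_lt.mpr h2.le
        have hd : dn h (T (k + m)) (T (k + m + 1)) = 0 := by rw [dn, if_neg h3]
        have hu : up h (T (k + m)) (T (k + m + 1)) = h (T (k + m + 1)) := by rw [up, if_pos h2]
        by_cases h4 : Inc k m T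
        · rw [i1 _ _ (hmem.mpr (Or.inr ⟨h4, h2⟩)), i1 _ _ h4, hu]
          by_cases h5 : NoMin k m T
          · rw [i1 _ _ h5, hd, zero_add]
          · rw [i2 _ _ h5, zero_add]
        · rw [i2 (NoMin k (m + 1)), i2 _ _ h4, add_zero]
          · by_cases h5 : NoMin k m T
            · rw [i1 _ _ h5, hd]
            · rw [i2 _ _ h5]
          · intro h6
            rcases hmem.mp h6 with h7 | h7
            · exact h3 h7.2
            · exact h4 h7.1
      · have h3 : ¬ T (k + m) < T (k + m + 1) := not_lt.mpr h2.le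
        have hd : dn h (T (k + m)) (T (k + m + 1)) = h (T (k + m + 1)) := by rw [dn, if_pos h2]
        have hu : up h (T (k + m)) (T (k + m + 1)) = 0 := by rw [up, if_neg h3]
        by_cases h5 : NoMin k m T
        · rw [i1 _ _ (hmem.mpr (Or.inl ⟨h5, h2⟩)), i1 _ _ h5, hd]
          by_cases h4 : Inc k m T
          · rw [i1 _ _ h4, hu, add_zero]
          · rw [i2 _ _ h4, add_zero]
        · rw [i2 (NoMin k (m + 1)), i2 _ _ h5, zero_add]
          · by_cases h4 : Inc k m T
            · rw [i1 _ _ h4, hu]
            · rw [i2 _ _ h4]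
          · intro h6
            rcases hmem.mp h6 with h7 | h7
            · exact h5 h7.1
            · exact h3 h7.2
    rw [lintegral_congr_ae h1]
    have hf2 := measurable_dn hh
    rw [lintegral_add_left]
    swap
    · refine Measurable.indicator ?_ (measurableSet_noMin k m)
      exact hf2.comp (measurable_pair _ _)
    have hinc := lintegral_inc k (m + 1) hh
    have hinc2 : ∫⁻ T, {T : ℤ → ℝ | Inc k m T}.indicator
        (fun T => up h (T (k + m)) (T (k + m + 1))) T ∂PT =
        ∫⁻ t, ENNReal.ofReal (t ^ (m + 1) / ((m + 1)! : ℝ)) * h t ∂unif := by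
      rw [← hinc]
      refine lintegral_congr fun T => ?_
      have e : k + ((m + 1 : ℕ) : ℤ) = k + m + 1 := by push_cast; ring
      rw [e]
      by_cases h2 : Inc k m T
      · by_cases h3 : T (k + m) < T (k + m + 1)
        · rw [Set.indicator_of_mem (s := {T : ℤ → ℝ | Inc k (m + 1) T})
            (by exact (inc_succ k m T).mpr ⟨h2, h3⟩),
            Set.indicator_of_mem (by exact h2), up, if_pos h3]
        · rw [Set.indicator_of_notMem (s := {T : ℤ → ℝ | Inc k (m + 1) T}),
            Set.indicator_of_mem (by exact h2)]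
          · rw [up, if_neg h3]
          · intro h4
            exact h3 ((inc_succ k m T).mp h4).2
      · rw [Set.indicator_of_notMem (by exact h2), Set.indicator_of_notMem]
        intro h4
        exact h2 ((inc_succ k m T).mp h4).1
    rw [hinc2, step (measurableSet_noMin k m) (fun T T' hTT => noMin_congr hTT) hf2]
    have hh2 : Measurable fun x : ℝ => ∫⁻ s, dn h x s ∂unif := hf2.lintegral_prod_right'
    rw [ih hh2]
    have h3 : ∀ t : ℝ, ENNReal.ofReal ((t ^ m + (2 - t) ^ m) / (2 * (m ! : ℝ))) *
        ∫⁻ s, dn h t s ∂unif =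
        ∫⁻ s, (if s < t then ENNReal.ofReal ((t ^ m + (2 - t) ^ m) / (2 * (m ! : ℝ))) else 0) *
          h s ∂unif := by
      intro t
      rw [← lintegral_const_mul' _ _ ENNReal.ofReal_ne_top]
      refine lintegral_congr fun s => ?_
      unfold dn
      split_ifs <;> simp
    simp only [h3]
    rw [lintegral_lintegral_swap, ← lintegral_add_right]
    · have hae : ∀ᵐ t ∂unif, t ∈ Set.Icc (0 : ℝ) 1 := ae_restrict_mem measurableSet_Icc
      refine lintegral_congr_ae ?_
      filter_upwards [hae] with s hs
      rw [lintegral_mul_const]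
      · rw [← add_mul]
        congr 1
        rw [lintegral_unif_gt (g := fun t => (t ^ m + (2 - t) ^ m) / (2 * (m ! : ℝ)))
          (by fun_prop) (fun t ht => by
            have h1 := ht.1
            have h2 : 0 ≤ 2 - t := by linarith [ht.2]
            positivity) hs]
        have hint : ∫ t in s..1, (t ^ m + (2 - t) ^ m) / (2 * (m ! : ℝ)) =
            ((2 - s) ^ (m + 1) - s ^ (m + 1)) / (2 * ((m + 1)! : ℝ)) := by
          rw [intervalIntegral.integral_div, intervalIntegral.integral_add
            (f := fun t : ℝ => t ^ m) (g := fun t : ℝ => (2 - t) ^ m)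
            (Continuous.intervalIntegrable (by fun_prop) _ _)
            (Continuous.intervalIntegrable (by fun_prop) _ _)]
          have e1 : ∫ t in s..1, (2 - t) ^ m = ∫ t in (1 : ℝ)..(2 - s), t ^ m := by
            have := intervalIntegral.integral_comp_sub_left (fun t : ℝ => t ^ m) (a := s) (b := 1)
              (2 : ℝ)
            rw [this]
            norm_num
          rw [e1, integral_pow, integral_pow, Nat.factorial_succ]
          push_cast
          have hm1 : (m : ℝ) + 1 ≠ 0 := by positivity
          have hm2 : (m ! : ℝ) ≠ 0 := by positivity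
          field_simp
          ring
        rw [hint, ← ENNReal.ofReal_add]
        · congr 1
          field_simp
          ring
        · have h1 : s ≤ 2 - s := by linarith [hs.2]
          have h2 := pow_le_pow_left₀ hs.1 h1 (m + 1)
          have h3 : 0 ≤ (2 - s) ^ (m + 1) - s ^ (m + 1) := by linarith
          positivity
        · have := hs.1
          positivity
      · refine Measurable.ite (measurableSet_lt measurable_const measurable_id) ?_ measurable_const
        fun_prop
    · fun_prop
    · refine Measurable.aemeasurable ?_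
      refine Measurable.mul ?_ (hh.comp measurable_snd)
      refine Measurable.ite (measurableSet_lt measurable_snd measurable_fst) ?_ measurable_const
      fun_prop

/-- the probability of having no interior local minimum -/
theorem PT_noMin (k : ℤ) (m : ℕ) :
    PT {T : ℤ → ℝ | NoMin k m T} = ENNReal.ofReal (2 ^ m / ((m + 1)! : ℝ)) := by
  have h := lintegral_noMin k m (h := fun _ => 1) measurable_const
  rw [lintegral_indicator (measurableSet_noMin k m), setLIntegral_const, one_mul] at h
  rw [h]
  simp only [mul_one]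
  have h1 := lintegral_unif_gt (g := fun t => (t ^ m + (2 - t) ^ m) / (2 * (m ! : ℝ)))
    (by fun_prop) (fun t ht => by
      have h1 := ht.1
      have h2 : 0 ≤ 2 - t := by linarith [ht.2]
      positivity) (t := 0) (by norm_num)
  have h2 : ∫⁻ s, (if (0 : ℝ) < s then
      ENNReal.ofReal ((s ^ m + (2 - s) ^ m) / (2 * (m ! : ℝ))) else 0) ∂unif =
      ∫⁻ s, ENNReal.ofReal ((s ^ m + (2 - s) ^ m) / (2 * (m ! : ℝ))) ∂unif := by
    refine lintegral_congr_ae ?_
    have h3 : ∀ᵐ t ∂unif, t ∈ Set.Icc (0 : ℝ) 1 := ae_restrict_mem measurableSet_Icc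
    have h4 : ∀ᵐ t ∂unif, t ≠ 0 := by
      have : ∀ᵐ t ∂(volume : Measure ℝ), t ≠ 0 := by
        rw [ae_iff]
        simp
      exact ae_restrict_of_ae this
    filter_upwards [h3, h4] with t ht ht0
    rw [if_pos (lt_of_le_of_ne ht.1 (Ne.symm ht0))]
  rw [← h2, h1]
  congr 1
  rw [intervalIntegral.integral_div, intervalIntegral.integral_add
    (f := fun t : ℝ => t ^ m) (g := fun t : ℝ => (2 - t) ^ m)
    (Continuous.intervalIntegrable (by fun_prop) _ _)
    (Continuous.intervalIntegrable (by fun_prop) _ _)]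
  have e1 : ∫ t in (0 : ℝ)..1, (2 - t) ^ m = ∫ t in (1 : ℝ)..2, t ^ m := by
    have := intervalIntegral.integral_comp_sub_left (fun t : ℝ => t ^ m) (a := 0) (b := 1) (2 : ℝ)
    rw [this]
    norm_num
  rw [e1, integral_pow, integral_pow, Nat.factorial_succ]
  push_cast
  have hm1 : (m : ℝ) + 1 ≠ 0 := by positivity
  have hm2 : (m ! : ℝ) ≠ 0 := by positivity
  field_simp
  ring

end Pool.Agent.Y979.FC
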