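import Pool.Agent.Y979.FC.Block

/-!
# The word probabilities of the block factor
-/

set_option autoImplicit false

namespace Pool.Agent.Y979.FC

open MeasureTheory Measure
open scoped ENNReal

/-- the sum of `f` over all words in the colors that fit the pattern after merging -/
noncomputable def msum3 : List (Option (Fin 3)) → (List (Fin 4) → ℝ≥0∞) → ℝ≥0∞
  | [], f => f []
  | none :: w, f => ∑ a, msum3 w (fun y => f (a :: y))
  | some c :: w, f => ∑ a ∈ Finset.univ.filter (fun a => merge a = c),
      msum3 w (fun y => f (a :: y))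

theorem msum3_congr {w : List (Option (Fin 3))} {f g : List (Fin 4) → ℝ≥0∞}
    (h : ∀ y, f y = g y) : msum3 w f = msum3 w g := by
  have : f = g := funext h
  rw [this]

theorem msum3_mul (w : List (Option (Fin 3))) (c : ℝ≥0∞) (f : List (Fin 4) → ℝ≥0∞) :
    msum3 w (fun y => c * f y) = c * msum3 w f := by
  induction w generalizing f with
  | nil => rfl
  | cons o w ih =>
    cases o with
    | none =>
      change ∑ a, msum3 w (fun y => c * f (a :: y)) = c * ∑ a, msum3 w (fun y => f (a :: y))
      rw [Finset.mul_sum]
      exact Finset.sum_congr rfl fun a _ => ih _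
    | some b =>
      change ∑ a ∈ _, msum3 w (fun y => c * f (a :: y)) = c * ∑ a ∈ _, msum3 w (fun y => f (a :: y))
      rw [Finset.mul_sum]
      exact Finset.sum_congr rfl fun a _ => ih _

theorem msum3_sum (w : List (Option (Fin 3))) (f : Fin 4 → List (Fin 4) → ℝ≥0∞) :
    ∑ a, msum3 w (f a) = msum3 w (fun y => ∑ a, f a y) := by
  induction w generalizing f with
  | nil => rfl
  | cons o w ih =>
    cases o with
    | none =>
      change ∑ a, ∑ b, msum3 w (fun y => f a (b :: y)) = ∑ b, msum3 w (fun y => ∑ a, f a (b :: y))
      rw [Finset.sum_comm]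
      exact Finset.sum_congr rfl fun b _ => ih _
    | some c =>
      change ∑ a, ∑ b ∈ _, msum3 w (fun y => f a (b :: y)) =
        ∑ b ∈ _, msum3 w (fun y => ∑ a, f a (b :: y))
      rw [Finset.sum_comm]
      exact Finset.sum_congr rfl fun b _ => ih _

theorem msum3_none (v w : List (Option (Fin 3))) (f : List (Fin 4) → ℝ≥0∞) :
    msum3 (v ++ none :: w) f = ∑ c, msum3 (v ++ some c :: w) f := by
  induction v generalizing f with
  | nil =>
    change ∑ a, msum3 w (fun y => f (a :: y)) =
      ∑ c, ∑ a ∈ Finset.univ.filter (fun a => merge a = c), msum3 w (fun y => f (a :: y))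
    exact (Finset.sum_fiberwise Finset.univ merge fun a => msum3 w (fun y => f (a :: y))).symm
  | cons o v ih =>
    cases o with
    | none =>
      change ∑ a, msum3 (v ++ none :: w) (fun y => f (a :: y)) =
        ∑ c, ∑ a, msum3 (v ++ some c :: w) (fun y => f (a :: y))
      rw [Finset.sum_comm]
      exact Finset.sum_congr rfl fun a _ => ih _
    | some b =>
      change ∑ a ∈ _, msum3 (v ++ none :: w) (fun y => f (a :: y)) =
        ∑ c, ∑ a ∈ _, msum3 (v ++ some c :: w) (fun y => f (a :: y))
      rw [Finset.sum_comm]
      exact Finset.sum_congr rfl fun a _ => ih _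

theorem filter_merge (c : Fin 3) (hc : c ≠ 2) :
    Finset.univ.filter (fun a : Fin 4 => merge a = c) = {lift c} := by
  rcases letter_cases c hc with rfl | rfl <;> decide

/-- words in the letters `0, 1` in front -/
theorem msum3_word (u : List (Fin 3)) (hu : ∀ a ∈ u, a ≠ 2) (w : List (Option (Fin 3)))
    (f : List (Fin 4) → ℝ≥0∞) :
    msum3 (u.map some ++ w) f = msum3 w (fun y => f (u.map lift ++ y)) := by
  induction u generalizing f with
  | nil => rfl
  | cons c u ih =>
    change ∑ a ∈ Finset.univ.filter (fun a => merge a = c),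
      msum3 (u.map some ++ w) (fun y => f (a :: y)) = _
    rw [filter_merge c (hu c List.mem_cons_self), Finset.sum_singleton,
      ih (fun a ha => hu a (List.mem_cons_of_mem _ ha))]
    rfl

theorem msum3_split (u : List (Fin 3)) (hu : ∀ a ∈ u, a ≠ 2) (v : List (Option (Fin 3))) :
    msum3 (u.map some ++ none :: v) q = q (u.map lift) * msum3 v q := by
  rw [msum3_word u hu]
  change ∑ a, msum3 v (fun y => q (u.map lift ++ a :: y)) = _
  rw [msum3_sum, ← msum3_mul]
  exact msum3_congr fun y => sum_q _ _

/-- patterns without the letter `2` -/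
theorem lawY_free (n : ℕ) (w : List (Option (Fin 3))) (hn : w.length ≤ n)
    (hw : Letters (· ≠ 2) w) (k : ℤ) : lawY {x | Match x k w} = msum3 w q := by
  induction n generalizing w k with
  | zero =>
    have : w = [] := List.length_eq_zero_iff.mp (by omega)
    subst this
    simp [Match, msum3, q, B_nil, Z_zero]
  | succ n ih =>
    rcases pattern_cases w with ⟨u, rfl⟩ | ⟨u, v, rfl⟩
    · have hu : ∀ a ∈ u, a ≠ 2 := fun a ha => hw a (List.mem_map.mpr ⟨a, ha, rfl⟩)
      rw [goodLaw_lawY.word k u hu]
      have := msum3_word u hu [] q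
      rw [List.append_nil] at this
      rw [this]
      change _ = q (u.map lift ++ [])
      rw [List.append_nil]
    · have hu : ∀ a ∈ u, a ≠ 2 := fun a ha => hw a
        (List.mem_append.mpr (Or.inl (List.mem_map.mpr ⟨a, ha, rfl⟩)))
      have hv : Letters (· ≠ 2) v := fun a ha => hw a
        (List.mem_append.mpr (Or.inr (List.mem_cons_of_mem _ ha)))
      rw [goodLaw_lawY.split k u v hu hv, msum3_split u hu]
      congr 1
      apply ih v _ hv
      simp only [List.length_append, List.length_map, List.length_cons] at hn
      omega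

theorem lawY_sum (k : ℤ) (v w : List (Option (Fin 3))) :
    lawY {x | Match x k (v ++ none :: w)} = ∑ a, lawY {x | Match x k (v ++ some a :: w)} := by
  have h1 : {x : ℤ → Fin 3 | Match x k (v ++ none :: w)} =
      ⋃ a, {x | Match x k (v ++ some a :: w)} := by
    ext x
    simp only [Set.mem_ofPred_eq, Set.mem_iUnion, match_append]
    constructor
    · rintro ⟨h1, h2⟩
      exact ⟨x (k + v.length), h1, rfl, h2⟩
    · rintro ⟨a, h1, _, h2⟩
      exact ⟨h1, h2⟩
  rw [h1, measure_iUnion, tsum_fintype]
  · intro a b hab
    refine Set.disjoint_left.mpr fun x ha hb => hab ?_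
    simp only [Set.mem_ofPred_eq, match_append] at ha hb
    exact ha.2.1.symm.trans hb.2.1
  · exact fun a => measurableSet_match (X := fun i (x : ℤ → Fin 3) => x i)
      (fun i => measurable_pi_apply i) k _

/-- all patterns -/
theorem lawY_match_all (n : ℕ) (w : List (Option (Fin 3))) (hn : w.count (some 2) ≤ n) (k : ℤ) :
    lawY {x | Match x k w} = msum3 w q := by
  induction n generalizing w with
  | zero =>
    refine lawY_free w.length w le_rfl (fun a ha h2 => ?_) k
    subst h2
    have := List.count_pos_iff.mpr ha
    omega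
  | succ n ih =>
    by_cases h : some 2 ∈ w
    · obtain ⟨v, w', rfl⟩ := List.append_of_mem h
      have hc : (v ++ some 2 :: w').count (some (2 : Fin 3)) =
          v.count (some 2) + (w'.count (some 2) + 1) := by
        rw [List.count_append, List.count_cons_self]
      have h0 := lawY_sum k v w'
      have h1 := msum3_none v w' q
      have hle : ∀ o : Option (Fin 3), o ≠ some 2 → (v ++ o :: w').count (some (2 : Fin 3)) ≤ n := by
        intro o ho
        rw [List.count_append, List.count_cons_of_ne ho]
        omega
      rw [ih _ (hle none (by simp))] at h0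
      rw [Fin.sum_univ_three] at h0 h1
      rw [ih _ (hle (some 0) (by decide)), ih _ (hle (some 1) (by decide))] at h0
      rw [h1] at h0
      have hfin : msum3 (v ++ some 0 :: w') q + msum3 (v ++ some 1 :: w') q ≠ ⊤ := by
        have e0 := ih _ (hle (some 0) (by decide))
        have e1 := ih _ (hle (some 1) (by decide))
        rw [← e0, ← e1]
        exact ENNReal.add_ne_top.mpr ⟨measure_ne_top _ _, measure_ne_top _ _⟩
      exact ((ENNReal.add_right_inj hfin).mp h0).symm
    · exact ih w (by
        rw [List.count_eq_zero_of_not_mem h]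
        exact Nat.zero_le _)

/-- the sum over all words that merge to a given word -/
theorem msum3_ofFn (n : ℕ) (w : Fin n → Fin 3) (f : List (Fin 4) → ℝ≥0∞) :
    msum3 ((List.ofFn w).map some) f =
      ∑ y ∈ Finset.univ.filter (fun y : Fin n → Fin 4 => ∀ i, merge (y i) = w i),
        f (List.ofFn y) := by
  induction n generalizing f with
  | zero => simp [msum3]
  | succ n ih =>
    rw [List.ofFn_succ]
    change ∑ a ∈ Finset.univ.filter (fun a => merge a = w 0),
      msum3 ((List.ofFn fun i => w i.succ).map some) (fun y => f (a :: y)) = _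
    simp only [ih]
    rw [Finset.sum_filter, Finset.sum_filter, ← (Fin.consEquiv fun _ : Fin (n + 1) => Fin 4).sum_comp,
      Fintype.sum_prod_type]
    refine Finset.sum_congr rfl fun a _ => ?_
    by_cases ha : merge a = w 0
    · rw [if_pos ha, Finset.sum_filter]
      refine Finset.sum_congr rfl fun y _ => ?_
      have h1 : (∀ i, merge ((Fin.consEquiv fun _ : Fin (n + 1) => Fin 4) (a, y) i) = w i) ↔
          ∀ i, merge (y i) = w i.succ := by
        rw [Fin.forall_fin_succ]
        simp [Fin.consEquiv, ha]
      have h2 : List.ofFn ((Fin.consEquiv fun _ : Fin (n + 1) => Fin 4) (a, y)) =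
          a :: List.ofFn y := by
        simp [Fin.consEquiv, List.ofFn_succ]
      simp only [h1, h2]
    · rw [if_neg ha]
      symm
      refine Finset.sum_eq_zero fun y _ => ?_
      rw [if_neg]
      intro h
      apply ha
      simpa [Fin.consEquiv] using h 0

/-- the word probabilities of the block factor -/
theorem lawY_word (k : ℤ) (n : ℕ) (w : Fin n → Fin 3) :
    lawY {x | ∀ j : Fin n, x (k + j) = w j} =
      ∑ y ∈ Finset.univ.filter (fun y : Fin n → Fin 4 => ∀ i, merge (y i) = w i),
        (B (List.ofFn y) : ℝ≥0∞) / (Z n : ℝ≥0∞) := by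
  have h1 : {x : ℤ → Fin 3 | ∀ j : Fin n, x (k + j) = w j} =
      {x | Match x k ((List.ofFn w).map some)} := by
    ext x
    simp only [Set.mem_ofPred_eq]
    rw [match_word_iff]
    constructor
    · intro h j hj
      rw [List.getElem_ofFn]
      rw [List.length_ofFn] at hj
      exact h ⟨j, hj⟩
    · intro h j
      have := h j (by rw [List.length_ofFn]; exact j.2)
      rw [List.getElem_ofFn] at this
      exact this
  rw [h1, lawY_match_all _ _ le_rfl, msum3_ofFn]
  refine Finset.sum_congr rfl fun y _ => ?_
  rw [q, List.length_ofFn]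

end Pool.Agent.Y979.FC
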